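import Mathlib

/-!
# Project FU, module numC: five inequalities between binomial coefficients

`Gf k x = (x + k).choose k`; `m = p + 1`, `k = l + 1`, `s = Gf k p`, `a = Gf (k - 1) p`, for `k ≥ 3` and `m ≤ k + 1`. Induction
on `k`, starting with `k = 3` (`m ≤ 4`) or `k = m - 1`; the latter case by induction along the diagonal, where the
right sides grow by the factor `128` at least.
-/

set_option autoImplicit false

namespace Pool.Agent.H1.FU

/-- the number of forms of degree `x` in `k + 1` variables -/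
def Gf (k x : ℕ) : ℕ := (x + k).choose k

theorem Gf_succ (k x : ℕ) : (k + 1) * Gf (k + 1) x = (x + k + 1) * Gf k x := by
  unfold Gf
  have h := Nat.add_one_mul_choose_eq (x + k) k
  rw [show x + (k + 1) = x + k + 1 by ring, h]
  ring

theorem Gf_mono (k : ℕ) {x y : ℕ} (h : x ≤ y) : Gf k x ≤ Gf k y :=
  Nat.choose_le_choose _ (by omega)

theorem Gf_pos (k x : ℕ) : 1 ≤ Gf k x := Nat.choose_pos (by omega)

/-- one step -/
theorem stp {c u v X X' Y Y' : ℕ} (hc : 0 < c) (h1 : c * X' ≤ u * X) (h2 : v * Y ≤ c * Y')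
    (huv : u ≤ v) (h : X ≤ Y) : X' ≤ Y' := by
  refine le_of_mul_le_mul_left ?_ hc
  calc c * X' ≤ u * X := h1
    _ ≤ v * Y := Nat.mul_le_mul huv h
    _ ≤ c * Y' := h2

/-! ### From `k` to `k + 1`, `m = p + 1`, `k = l + 1` -/

section up

variable {p l : ℕ}

theorem up1 (hp : p ≤ l + 1) (h : 4 * (Gf l p * Gf (l + 1) p) ≤ Gf (l + 1) (8 * (p + 1))) :
    4 * (Gf (l + 1) p * Gf (l + 2) p) ≤ Gf (l + 2) (8 * (p + 1)) := by
  have a1 := Gf_succ l p
  have a2 := Gf_succ (l + 1) p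
  have a3 := Gf_succ (l + 1) (8 * (p + 1))
  refine stp (c := (l + 1) * (l + 2)) (u := (p + l + 1) * (p + l + 2))
    (v := (l + 1) * (8 * (p + 1) + l + 2)) (by positivity) (le_of_eq ?_) (le_of_eq ?_) ?_ h
  · calc (l + 1) * (l + 2) * (4 * (Gf (l + 1) p * Gf (l + 2) p))
        = 4 * (((l + 1) * Gf (l + 1) p) * ((l + 1 + 1) * Gf (l + 1 + 1) p)) := by ring
      _ = _ := by rw [a1, a2]; ring
  · calc (l + 1) * (8 * (p + 1) + l + 2) * Gf (l + 1) (8 * (p + 1))
        = (l + 1) * ((8 * (p + 1) + (l + 1) + 1) * Gf (l + 1) (8 * (p + 1))) := by ring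
      _ = _ := by rw [← a3]; ring
  · nlinarith [Nat.mul_le_mul_left p hp]

theorem up2 (hp : p ≤ l + 1) {C : ℕ}
    (h : C * (Gf l p * Gf (l + 1) p ^ 2) ≤ Gf (l + 1) (127 * (p + 1))) :
    C * (Gf (l + 1) p * Gf (l + 2) p ^ 2) ≤ Gf (l + 2) (127 * (p + 1)) := by
  have a1 := Gf_succ l p
  have a2 := Gf_succ (l + 1) p
  have a3 := Gf_succ (l + 1) (127 * (p + 1))
  refine stp (c := (l + 1) * (l + 2) ^ 2) (u := (p + l + 1) * (p + l + 2) ^ 2)
    (v := (l + 1) * (l + 2) * (127 * (p + 1) + l + 2)) (by positivity) (le_of_eq ?_) (le_of_eq ?_) ?_ h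
  · calc (l + 1) * (l + 2) ^ 2 * (C * (Gf (l + 1) p * Gf (l + 2) p ^ 2))
        = C * (((l + 1) * Gf (l + 1) p) * ((l + 1 + 1) * Gf (l + 1 + 1) p) ^ 2) := by ring
      _ = _ := by rw [a1, a2]; ring
  · calc (l + 1) * (l + 2) * (127 * (p + 1) + l + 2) * Gf (l + 1) (127 * (p + 1))
        = (l + 1) * (l + 2) * ((127 * (p + 1) + (l + 1) + 1) * Gf (l + 1) (127 * (p + 1))) := by ring
      _ = _ := by rw [← a3]; ring
  · obtain ⟨r, hr⟩ : ∃ r, l + 1 = p + r := ⟨l + 1 - p, by omega⟩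
    have e1 : l + 2 = p + r + 1 := by omega
    rw [show p + l + 1 = 2 * p + r by omega, show p + l + 2 = 2 * p + r + 1 by omega, hr, e1,
      show 127 * (p + 1) + l + 2 = 128 * p + r + 128 by omega]
    nlinarith [Nat.zero_le (p * r), Nat.zero_le (p * r * r), Nat.zero_le (p * p * r),
      Nat.zero_le (p * p * p), Nat.zero_le (p * p), Nat.zero_le (r * r), Nat.zero_le (r * r * r)]

theorem up3 (hp : p ≤ l + 1) {C : ℕ}
    (h : C * (Gf (l + 1) p * Gf (l + 1) (9 * (p + 1))) ≤ Gf (l + 1) (127 * (p + 1))) :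
    C * (Gf (l + 2) p * Gf (l + 2) (9 * (p + 1))) ≤ Gf (l + 2) (127 * (p + 1)) := by
  have a1 := Gf_succ (l + 1) (9 * (p + 1))
  have a2 := Gf_succ (l + 1) p
  have a3 := Gf_succ (l + 1) (127 * (p + 1))
  refine stp (c := (l + 2) * (l + 2)) (u := (p + l + 2) * (9 * (p + 1) + l + 2))
    (v := (l + 2) * (127 * (p + 1) + l + 2)) (by positivity) (le_of_eq ?_) (le_of_eq ?_) ?_ h
  · calc (l + 2) * (l + 2) * (C * (Gf (l + 2) p * Gf (l + 2) (9 * (p + 1))))
        = C * (((l + 1 + 1) * Gf (l + 1 + 1) p) * ((l + 1 + 1) * Gf (l + 1 + 1) (9 * (p + 1)))) := by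
          ring
      _ = _ := by rw [a1, a2]; ring
  · calc (l + 2) * (127 * (p + 1) + l + 2) * Gf (l + 1) (127 * (p + 1))
        = (l + 2) * ((127 * (p + 1) + (l + 1) + 1) * Gf (l + 1) (127 * (p + 1))) := by ring
      _ = _ := by rw [← a3]; ring
  · nlinarith [Nat.mul_le_mul_left p hp]

theorem up5 (hp : p ≤ l + 1) {C : ℕ}
    (h : C * (Gf (l + 1) p * Gf (l + 2) (9 * (p + 1))) ≤ Gf (l + 2) (127 * (p + 1))) :
    C * (Gf (l + 2) p * Gf (l + 3) (9 * (p + 1))) ≤ Gf (l + 3) (127 * (p + 1)) := by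
  have a1 := Gf_succ (l + 2) (9 * (p + 1))
  have a2 := Gf_succ (l + 1) p
  have a3 := Gf_succ (l + 2) (127 * (p + 1))
  refine stp (c := (l + 2) * (l + 3)) (u := (p + l + 2) * (9 * (p + 1) + l + 3))
    (v := (l + 2) * (127 * (p + 1) + l + 3)) (by positivity) (le_of_eq ?_) (le_of_eq ?_) ?_ h
  · calc (l + 2) * (l + 3) * (C * (Gf (l + 2) p * Gf (l + 3) (9 * (p + 1))))
        = C * (((l + 1 + 1) * Gf (l + 1 + 1) p) * ((l + 2 + 1) * Gf (l + 2 + 1) (9 * (p + 1)))) := by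
          ring
      _ = _ := by rw [a1, a2]; ring
  · calc (l + 2) * (127 * (p + 1) + l + 3) * Gf (l + 2) (127 * (p + 1))
        = (l + 2) * ((127 * (p + 1) + (l + 2) + 1) * Gf (l + 2) (127 * (p + 1))) := by ring
      _ = _ := by rw [← a3]; ring
  · nlinarith [Nat.mul_le_mul_left p hp]

theorem up6 (hp : p ≤ l + 1) {C : ℕ}
    (h : C * (Gf l p * Gf (l + 1) p ^ 2) ≤ Gf (l + 2) (127 * (p + 1))) :
    C * (Gf (l + 1) p * Gf (l + 2) p ^ 2) ≤ Gf (l + 3) (127 * (p + 1)) := by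
  have a1 := Gf_succ l p
  have a2 := Gf_succ (l + 1) p
  have a3 := Gf_succ (l + 2) (127 * (p + 1))
  refine stp (c := (l + 1) * (l + 2) ^ 2 * (l + 3)) (u := (p + l + 1) * (p + l + 2) ^ 2 * (l + 3))
    (v := (l + 1) * (l + 2) ^ 2 * (127 * (p + 1) + l + 3)) (by positivity) (le_of_eq ?_)
    (le_of_eq ?_) ?_ h
  · calc (l + 1) * (l + 2) ^ 2 * (l + 3) * (C * (Gf (l + 1) p * Gf (l + 2) p ^ 2))
        = C * (((l + 1) * Gf (l + 1) p) * ((l + 1 + 1) * Gf (l + 1 + 1) p) ^ 2) * (l + 3) := by ring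
      _ = _ := by rw [a1, a2]; ring
  · calc (l + 1) * (l + 2) ^ 2 * (127 * (p + 1) + l + 3) * Gf (l + 2) (127 * (p + 1))
        = (l + 1) * (l + 2) ^ 2 * ((127 * (p + 1) + (l + 2) + 1) * Gf (l + 2) (127 * (p + 1))) := by
          ring
      _ = _ := by rw [← a3]; ring
  · obtain ⟨r, hr⟩ : ∃ r, l + 1 = p + r := ⟨l + 1 - p, by omega⟩
    have e1 : l + 2 = p + r + 1 := by omega
    rw [show p + l + 1 = 2 * p + r by omega, show p + l + 2 = 2 * p + r + 1 by omega, hr, e1,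
      show 127 * (p + 1) + l + 3 = 128 * p + r + 129 by omega, show l + 3 = p + r + 2 by omega]
    have key : (2 * p + r) * (2 * p + r + 1) ^ 2 * (p + r + 2) ≤
        (p + r) * (p + r + 1) ^ 2 * (128 * p + r + 129) := by
      refine le_of_le_of_eq (Nat.le_add_right _ (127 * r + 254 * r ^ 2 + 127 * r ^ 3 + 125 * p +
        626 * p * r + 625 * p * r ^ 2 + 124 * p * r ^ 3 + 368 * p ^ 2 + 861 * p ^ 2 * r +
        369 * p ^ 2 * r ^ 2 + 361 * p ^ 3 + 365 * p ^ 3 * r + 120 * p ^ 4)) ?_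
      ring
    exact key

end up


/-! ### The diagonal `m = k + 1 = l + 2` -/

/-- the double induction -/
theorem grid (I : ℕ → ℕ → Prop) (h2 : ∀ p, p ≤ 3 → I p 2)
    (hd : ∀ l, 2 ≤ l → I (l + 1) l → I (l + 2) (l + 1))
    (hu : ∀ p l, 2 ≤ l → p ≤ l + 1 → I p l → I p (l + 1)) :
    ∀ p l, 2 ≤ l → p ≤ l + 1 → I p l := by
  have hdiag : ∀ l, 2 ≤ l → I (l + 1) l := by
    intro l hl
    induction l, hl using Nat.le_induction with
    | base => exact h2 3 le_rfl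
    | succ l hl ih => exact hd l hl ih
  intro p l hl hp
  by_cases h3 : p ≤ 3
  · clear hp
    induction l, hl using Nat.le_induction with
    | base => exact h2 p h3
    | succ l hl ih => exact hu p l hl (by omega) ih
  · obtain ⟨q, rfl⟩ : ∃ q, p = q + 1 := ⟨p - 1, by omega⟩
    have hql : q ≤ l := by omega
    clear hl hp
    induction l, hql using Nat.le_induction with
    | base => exact hdiag q (by omega)
    | succ l hl ih => exact hu (q + 1) l (by omega) (by omega) ih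

section diag

variable (l : ℕ)

theorem d_s : (l + 2) * Gf (l + 2) (l + 2) = 2 * (2 * l + 3) * Gf (l + 1) (l + 1) := by
  have h := Nat.succ_mul_centralBinom_succ (l + 1)
  unfold Nat.centralBinom at h
  unfold Gf
  rw [show l + 2 + (l + 2) = 2 * (l + 1 + 1) by ring, show l + 1 + (l + 1) = 2 * (l + 1) by ring]
  rw [show 2 * (2 * l + 3) = 2 * (2 * (l + 1) + 1) by ring]
  exact h

theorem d_a : 2 * Gf l (l + 1) = Gf (l + 1) (l + 1) := by
  unfold Gf
  rw [show l + 1 + (l + 1) = (l + 1 + l) + 1 by ring, Nat.choose_succ_succ]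
  have h : (l + 1 + l).choose l = (l + 1 + l).choose (l + 1) := by
    rw [Nat.choose_symm_add]
  rw [← h]
  ring

/-- growth by the factor 128 -/
theorem d_Y : 128 * Gf (l + 1) (127 * (l + 2)) ≤ Gf (l + 2) (127 * (l + 3)) := by
  unfold Gf
  have h := Nat.add_one_mul_choose_eq (128 * l + 382) (l + 1)
  have h1 : (128 * l + 255).choose (l + 1) ≤ (128 * l + 382).choose (l + 1) :=
    Nat.choose_le_choose _ (by omega)
  rw [show 127 * (l + 2) + (l + 1) = 128 * l + 255 by ring,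
    show 127 * (l + 3) + (l + 2) = 128 * l + 382 + 1 by ring, show l + 2 = l + 1 + 1 by ring]
  refine le_of_mul_le_mul_left (?_ : (l + 1 + 1) * _ ≤ (l + 1 + 1) * _) (Nat.succ_pos (l + 1))
  calc (l + 1 + 1) * (128 * (128 * l + 255).choose (l + 1))
      = (128 * l + 256) * (128 * l + 255).choose (l + 1) := by ring
    _ ≤ (128 * l + 382 + 1) * (128 * l + 382).choose (l + 1) := Nat.mul_le_mul (by omega) h1
    _ = (l + 1 + 1) * (128 * l + 382 + 1).choose (l + 1 + 1) := by rw [h]; ring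

theorem d_Y' : 128 * Gf (l + 2) (127 * (l + 2)) ≤ Gf (l + 3) (127 * (l + 3)) := by
  unfold Gf
  have h := Nat.add_one_mul_choose_eq (128 * l + 383) (l + 2)
  have h1 : (128 * l + 256).choose (l + 2) ≤ (128 * l + 383).choose (l + 2) :=
    Nat.choose_le_choose _ (by omega)
  rw [show 127 * (l + 2) + (l + 2) = 128 * l + 256 by ring,
    show 127 * (l + 3) + (l + 3) = 128 * l + 383 + 1 by ring, show l + 3 = l + 2 + 1 by ring]
  refine le_of_mul_le_mul_left (?_ : (l + 2 + 1) * _ ≤ (l + 2 + 1) * _) (Nat.succ_pos (l + 2))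
  calc (l + 2 + 1) * (128 * (128 * l + 256).choose (l + 2))
      = (128 * l + 384) * (128 * l + 256).choose (l + 2) := by ring
    _ ≤ (128 * l + 383 + 1) * (128 * l + 383).choose (l + 2) := Nat.mul_le_mul (by omega) h1
    _ = (l + 2 + 1) * (128 * l + 383 + 1).choose (l + 2 + 1) := by rw [h]; ring

/-- one unit more -/
theorem c_one (n M : ℕ) (h : 10 * M ≤ n + 1) : 9 * (n + 1).choose M ≤ 10 * n.choose M := by
  have h1 := Nat.choose_mul_succ_eq n M
  obtain ⟨j, hj⟩ : ∃ j, n + 1 = M + j := ⟨n + 1 - M, by omega⟩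
  have h2 : n + 1 - M = j := by omega
  have h1' : n.choose M * (n + 1) = (n + 1).choose M * j := by
    rw [← h2]; exact h1
  have hj0 : 0 < j := by omega
  refine le_of_mul_le_mul_left (?_ : j * _ ≤ j * _) hj0
  calc j * (9 * (n + 1).choose M) = 9 * ((n + 1).choose M * j) := by ring
    _ = 9 * (n + 1) * n.choose M := by rw [← h1']; ring
    _ ≤ 10 * j * n.choose M := Nat.mul_le_mul_right _ (by omega)
    _ = j * (10 * n.choose M) := by ring

theorem c_nine (n M : ℕ) (h : 10 * M ≤ n + 1) (r : ℕ) :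
    9 ^ r * (n + r).choose M ≤ 10 ^ r * n.choose M := by
  induction r with
  | zero => simp
  | succ r ih =>
    have h1 := c_one (n + r) M (by omega)
    calc 9 ^ (r + 1) * (n + (r + 1)).choose M = 9 ^ r * (9 * (n + r + 1).choose M) := by ring_nf
      _ ≤ 9 ^ r * (10 * (n + r).choose M) := Nat.mul_le_mul_left _ h1
      _ = 10 * (9 ^ r * (n + r).choose M) := by ring
      _ ≤ 10 * (10 ^ r * n.choose M) := Nat.mul_le_mul_left _ ih
      _ = 10 ^ (r + 1) * n.choose M := by ring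

theorem d_Z : (l + 2) * (9 ^ 9 * Gf (l + 2) (9 * (l + 3))) ≤
    (10 * l + 29) * (10 ^ 9 * Gf (l + 1) (9 * (l + 2))) := by
  unfold Gf
  have h := Nat.add_one_mul_choose_eq (10 * l + 28) (l + 1)
  have h1 := c_nine (10 * l + 19) (l + 1) (by omega) 9
  rw [show 10 * l + 19 + 9 = 10 * l + 28 by ring] at h1
  rw [show 9 * (l + 2) + (l + 1) = 10 * l + 19 by ring,
    show 9 * (l + 3) + (l + 2) = 10 * l + 28 + 1 by ring, show l + 2 = l + 1 + 1 by ring]
  calc (l + 1 + 1) * (9 ^ 9 * (10 * l + 28 + 1).choose (l + 1 + 1))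
      = 9 ^ 9 * ((10 * l + 28 + 1).choose (l + 1 + 1) * (l + 1 + 1)) := by ring
    _ = (10 * l + 29) * (9 ^ 9 * (10 * l + 28).choose (l + 1)) := by rw [← h]; ring
    _ ≤ _ := Nat.mul_le_mul_left _ h1

theorem d_Z' : 9 ^ 9 * Gf (l + 3) (9 * (l + 3)) ≤ 10 ^ 10 * Gf (l + 2) (9 * (l + 2)) := by
  unfold Gf
  have h := Nat.add_one_mul_choose_eq (10 * l + 29) (l + 2)
  have h1 := c_nine (10 * l + 20) (l + 2) (by omega) 9
  rw [show 10 * l + 20 + 9 = 10 * l + 29 by ring] at h1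
  rw [show 9 * (l + 2) + (l + 2) = 10 * l + 20 by ring,
    show 9 * (l + 3) + (l + 3) = 10 * l + 29 + 1 by ring, show l + 3 = l + 2 + 1 by ring]
  refine le_of_mul_le_mul_left (?_ : (l + 2 + 1) * _ ≤ (l + 2 + 1) * _) (Nat.succ_pos (l + 2))
  calc (l + 2 + 1) * (9 ^ 9 * (10 * l + 29 + 1).choose (l + 2 + 1))
      = 9 ^ 9 * ((10 * l + 29 + 1).choose (l + 2 + 1) * (l + 2 + 1)) := by ring
    _ = 10 * (l + 2 + 1) * (9 ^ 9 * (10 * l + 29).choose (l + 2)) := by rw [← h]; ring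
    _ ≤ 10 * (l + 2 + 1) * (10 ^ 9 * (10 * l + 20).choose (l + 2)) := Nat.mul_le_mul_left _ h1
    _ = _ := by ring

/-- `r` units more -/
theorem c_add (n M r : ℕ) : n.choose (M + 1) + r * n.choose M ≤ (n + r).choose (M + 1) := by
  induction r with
  | zero => simp
  | succ r ih =>
    have h1 : n.choose M ≤ (n + r).choose M := Nat.choose_le_choose _ (by omega)
    calc n.choose (M + 1) + (r + 1) * n.choose M
        = (n.choose (M + 1) + r * n.choose M) + n.choose M := by ring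
      _ ≤ (n + r).choose (M + 1) + (n + r).choose M := add_le_add ih h1
      _ = (n + (r + 1)).choose (M + 1) := by
          rw [show n + (r + 1) = n + r + 1 by ring, Nat.choose_succ_succ]; ring

theorem d_W : (9 * l + 26) * (16 * l + 25) * Gf (l + 1) (8 * (l + 2)) ≤
    (l + 2) * (8 * l + 17) * Gf (l + 2) (8 * (l + 3)) := by
  unfold Gf
  have h := Nat.add_one_mul_choose_eq (9 * l + 25) (l + 1)
  have h1 := c_add (9 * l + 17) l 8
  have h2 : (9 * l + 17).choose (l + 1) * (l + 1) = (9 * l + 17).choose l * (8 * l + 17) := by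
    have h3 := Nat.choose_succ_right_eq (9 * l + 17) l
    rw [show 9 * l + 17 - l = 8 * l + 17 by omega] at h3
    exact h3
  rw [show 9 * l + 17 + 8 = 9 * l + 25 by ring] at h1
  rw [show 8 * (l + 2) + (l + 1) = 9 * l + 17 by ring,
    show 8 * (l + 3) + (l + 2) = 9 * l + 25 + 1 by ring, show l + 2 = l + 1 + 1 by ring]
  calc (9 * l + 26) * (16 * l + 25) * (9 * l + 17).choose (l + 1)
      = (9 * l + 26) * ((8 * l + 17) * (9 * l + 17).choose (l + 1) +
        8 * ((9 * l + 17).choose (l + 1) * (l + 1))) := by ring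
    _ = (9 * l + 26) * (8 * l + 17) * ((9 * l + 17).choose (l + 1) + 8 * (9 * l + 17).choose l) := by
        rw [h2]; ring
    _ ≤ (9 * l + 26) * (8 * l + 17) * (9 * l + 25).choose (l + 1) := Nat.mul_le_mul_left _ h1
    _ = (8 * l + 17) * ((9 * l + 25 + 1) * (9 * l + 25).choose (l + 1)) := by ring
    _ = _ := by rw [h]; ring

end diag

theorem I1 : ∀ p l, 2 ≤ l → p ≤ l + 1 →
    4 * (Gf l p * Gf (l + 1) p) ≤ Gf (l + 1) (8 * (p + 1)) := by
  refine grid _ ?_ ?_ (fun p l _ hp h => up1 hp h)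
  · intro p hp
    interval_cases p <;>
      norm_num [Gf, Nat.choose_eq_descFactorial_div_factorial, Nat.descFactorial, Nat.factorial]
  · intro l hl h
    have a1 := d_a l
    have a2 := d_a (l + 1)
    have a3 := d_s l
    have a4 := d_W l
    refine stp (c := (l + 2) * (l + 2) * (8 * l + 17)) (u := 4 * (2 * l + 3) ^ 2 * (8 * l + 17))
      (v := (l + 2) * ((9 * l + 26) * (16 * l + 25))) (by positivity) (le_of_eq ?_) ?_ ?_ h
    · calc (l + 2) * (l + 2) * (8 * l + 17) * (4 * (Gf (l + 1) (l + 2) * Gf (l + 1 + 1) (l + 2)))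
          = (8 * l + 17) * 2 * ((l + 2) * (2 * Gf (l + 1) (l + 1 + 1))) * ((l + 2) * Gf (l + 2) (l + 2)) := by
            ring
        _ = (8 * l + 17) * 2 * ((l + 2) * Gf (l + 2) (l + 2)) * ((l + 2) * Gf (l + 2) (l + 2)) := by
            rw [a2]
        _ = (8 * l + 17) * 2 * (2 * (2 * l + 3)) ^ 2 * (Gf (l + 1) (l + 1) * Gf (l + 1) (l + 1)) := by
            rw [a3]; ring
        _ = (8 * l + 17) * 2 * (2 * (2 * l + 3)) ^ 2 * ((2 * Gf l (l + 1)) * Gf (l + 1) (l + 1)) := by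
            rw [a1]
        _ = _ := by ring
    · calc (l + 2) * ((9 * l + 26) * (16 * l + 25)) * Gf (l + 1) (8 * (l + 1 + 1))
          = (l + 2) * ((9 * l + 26) * (16 * l + 25) * Gf (l + 1) (8 * (l + 2))) := by ring
        _ ≤ (l + 2) * ((l + 2) * (8 * l + 17) * Gf (l + 2) (8 * (l + 3))) := Nat.mul_le_mul_left _ a4
        _ = _ := by ring
    · nlinarith [Nat.zero_le (l ^ 3), Nat.zero_le (l ^ 2)]

theorem I2 : ∀ p l, 2 ≤ l → p ≤ l + 1 →
    1380 * (p + 1) * (Gf l p * Gf (l + 1) p ^ 2) ≤ Gf (l + 1) (127 * (p + 1)) := by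
  refine grid _ ?_ ?_ (fun p l _ hp h => up2 hp h)
  · intro p hp
    interval_cases p <;>
      norm_num [Gf, Nat.choose_eq_descFactorial_div_factorial, Nat.descFactorial, Nat.factorial]
  · intro l hl h
    have a1 := d_a l
    have a2 := d_a (l + 1)
    have a3 := d_s l
    have a4 := d_Y l
    refine stp (c := (l + 2) ^ 4) (u := 8 * (l + 3) * (2 * l + 3) ^ 3)
      (v := 128 * (l + 2) ^ 4) (by positivity) (le_of_eq ?_) ?_ ?_ h
    · calc (l + 2) ^ 4 * (1380 * (l + 2 + 1) * (Gf (l + 1) (l + 2) * Gf (l + 1 + 1) (l + 2) ^ 2))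
          = 690 * (l + 3) * (l + 2) * ((l + 2) * (2 * Gf (l + 1) (l + 1 + 1))) *
              ((l + 2) * Gf (l + 2) (l + 2)) ^ 2 := by ring
        _ = 690 * (l + 3) * (l + 2) * ((l + 2) * Gf (l + 2) (l + 2)) *
              ((l + 2) * Gf (l + 2) (l + 2)) ^ 2 := by rw [a2]
        _ = 690 * (l + 3) * (l + 2) * (2 * (2 * l + 3)) ^ 3 * (Gf (l + 1) (l + 1) *
              Gf (l + 1) (l + 1) ^ 2) := by rw [a3]; ring
        _ = 690 * (l + 3) * (l + 2) * (2 * (2 * l + 3)) ^ 3 * ((2 * Gf l (l + 1)) *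
              Gf (l + 1) (l + 1) ^ 2) := by rw [a1]
        _ = _ := by ring
    · calc 128 * (l + 2) ^ 4 * Gf (l + 1) (127 * (l + 1 + 1))
          = (l + 2) ^ 4 * (128 * Gf (l + 1) (127 * (l + 2))) := by ring
        _ ≤ (l + 2) ^ 4 * Gf (l + 2) (127 * (l + 3)) := Nat.mul_le_mul_left _ a4
        _ = _ := by ring_nf
    · nlinarith [Nat.zero_le (l ^ 3), Nat.zero_le (l ^ 2), Nat.zero_le (l ^ 4)]

theorem I3 : ∀ p l, 2 ≤ l → p ≤ l + 1 →
    120 * (Gf (l + 1) p * Gf (l + 1) (9 * (p + 1))) ≤ Gf (l + 1) (127 * (p + 1)) := by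
  refine grid _ ?_ ?_ (fun p l _ hp h => up3 hp h)
  · intro p hp
    interval_cases p <;>
      norm_num [Gf, Nat.choose_eq_descFactorial_div_factorial, Nat.descFactorial, Nat.factorial]
  · intro l hl h
    have a3 := d_s l
    have a4 := d_Y l
    have a5 := d_Z l
    refine stp (c := (l + 2) ^ 2 * 9 ^ 9) (u := 2 * (2 * l + 3) * ((10 * l + 29) * 10 ^ 9))
      (v := 128 * ((l + 2) ^ 2 * 9 ^ 9)) (by positivity) ?_ ?_ ?_ h
    · calc (l + 2) ^ 2 * 9 ^ 9 * (120 * (Gf (l + 1 + 1) (l + 2) * Gf (l + 1 + 1) (9 * (l + 2 + 1))))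
          = 120 * (((l + 2) * Gf (l + 2) (l + 2)) * ((l + 2) * (9 ^ 9 * Gf (l + 2) (9 * (l + 3))))) := by
            ring
        _ ≤ 120 * (((l + 2) * Gf (l + 2) (l + 2)) *
              ((10 * l + 29) * (10 ^ 9 * Gf (l + 1) (9 * (l + 2))))) :=
            Nat.mul_le_mul_left _ (Nat.mul_le_mul_left _ a5)
        _ = _ := by rw [a3]; ring
    · calc 128 * ((l + 2) ^ 2 * 9 ^ 9) * Gf (l + 1) (127 * (l + 1 + 1))
          = ((l + 2) ^ 2 * 9 ^ 9) * (128 * Gf (l + 1) (127 * (l + 2))) := by ring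
        _ ≤ ((l + 2) ^ 2 * 9 ^ 9) * Gf (l + 2) (127 * (l + 3)) := Nat.mul_le_mul_left _ a4
        _ = _ := by ring_nf
    · nlinarith [Nat.zero_le (l ^ 2)]

theorem I5 : ∀ p l, 2 ≤ l → p ≤ l + 1 →
    380 * (p + 1) * (Gf (l + 1) p * Gf (l + 2) (9 * (p + 1))) ≤ Gf (l + 2) (127 * (p + 1)) := by
  refine grid _ ?_ ?_ (fun p l _ hp h => up5 hp h)
  · intro p hp
    interval_cases p <;>
      norm_num [Gf, Nat.choose_eq_descFactorial_div_factorial, Nat.descFactorial, Nat.factorial]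
  · intro l hl h
    have a3 := d_s l
    have a4 := d_Y' l
    have a5 := d_Z' l
    refine stp (c := (l + 2) ^ 2 * 9 ^ 9) (u := 2 * (l + 3) * (2 * l + 3) * 10 ^ 10)
      (v := 128 * ((l + 2) ^ 2 * 9 ^ 9)) (by positivity) ?_ ?_ ?_ h
    · calc (l + 2) ^ 2 * 9 ^ 9 * (380 * (l + 2 + 1) *
            (Gf (l + 1 + 1) (l + 2) * Gf (l + 1 + 2) (9 * (l + 2 + 1))))
          = 380 * (l + 3) * (l + 2) * (((l + 2) * Gf (l + 2) (l + 2)) *
              (9 ^ 9 * Gf (l + 3) (9 * (l + 3)))) := by ring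
        _ ≤ 380 * (l + 3) * (l + 2) * (((l + 2) * Gf (l + 2) (l + 2)) *
              (10 ^ 10 * Gf (l + 2) (9 * (l + 2)))) :=
            Nat.mul_le_mul_left _ (Nat.mul_le_mul_left _ a5)
        _ = _ := by rw [a3]; ring
    · calc 128 * ((l + 2) ^ 2 * 9 ^ 9) * Gf (l + 2) (127 * (l + 1 + 1))
          = ((l + 2) ^ 2 * 9 ^ 9) * (128 * Gf (l + 2) (127 * (l + 2))) := by ring
        _ ≤ ((l + 2) ^ 2 * 9 ^ 9) * Gf (l + 3) (127 * (l + 3)) := Nat.mul_le_mul_left _ a4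
        _ = _ := by ring_nf
    · nlinarith [Nat.zero_le (l ^ 2)]

theorem I6 : ∀ p l, 2 ≤ l → p ≤ l + 1 →
    2000 * (p + 1) ^ 2 * (Gf l p * Gf (l + 1) p ^ 2) ≤ Gf (l + 2) (127 * (p + 1)) := by
  refine grid _ ?_ ?_ (fun p l _ hp h => up6 hp h)
  · intro p hp
    interval_cases p <;>
      norm_num [Gf, Nat.choose_eq_descFactorial_div_factorial, Nat.descFactorial, Nat.factorial]
  · intro l hl h
    have a1 := d_a l
    have a2 := d_a (l + 1)
    have a3 := d_s l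
    have a4 := d_Y' l
    refine stp (c := (l + 2) ^ 5) (u := 8 * (l + 3) ^ 2 * (2 * l + 3) ^ 3)
      (v := 128 * (l + 2) ^ 5) (by positivity) (le_of_eq ?_) ?_ ?_ h
    · calc (l + 2) ^ 5 * (2000 * (l + 2 + 1) ^ 2 * (Gf (l + 1) (l + 2) * Gf (l + 1 + 1) (l + 2) ^ 2))
          = 1000 * (l + 3) ^ 2 * (l + 2) ^ 2 * ((l + 2) * (2 * Gf (l + 1) (l + 1 + 1))) *
              ((l + 2) * Gf (l + 2) (l + 2)) ^ 2 := by ring
        _ = 1000 * (l + 3) ^ 2 * (l + 2) ^ 2 * ((l + 2) * Gf (l + 2) (l + 2)) *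
              ((l + 2) * Gf (l + 2) (l + 2)) ^ 2 := by rw [a2]
        _ = 1000 * (l + 3) ^ 2 * (l + 2) ^ 2 * (2 * (2 * l + 3)) ^ 3 * (Gf (l + 1) (l + 1) *
              Gf (l + 1) (l + 1) ^ 2) := by rw [a3]; ring
        _ = 1000 * (l + 3) ^ 2 * (l + 2) ^ 2 * (2 * (2 * l + 3)) ^ 3 * ((2 * Gf l (l + 1)) *
              Gf (l + 1) (l + 1) ^ 2) := by rw [a1]
        _ = _ := by ring
    · calc 128 * (l + 2) ^ 5 * Gf (l + 2) (127 * (l + 1 + 1))
          = (l + 2) ^ 5 * (128 * Gf (l + 2) (127 * (l + 2))) := by ring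
        _ ≤ (l + 2) ^ 5 * Gf (l + 3) (127 * (l + 3)) := Nat.mul_le_mul_left _ a4
        _ = _ := by ring_nf
    · obtain ⟨j, rfl⟩ : ∃ j, l = j + 2 := ⟨l - 2, by omega⟩
      nlinarith [Nat.zero_le (j ^ 3), Nat.zero_le (j ^ 2), Nat.zero_le (j ^ 4), Nat.zero_le (j ^ 5)]

end Pool.Agent.H1.FU
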