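import Mathlib
import Pool.Agent.H55.FU.Stm

/-!
# The numerical part of Theorem B (module `S_numB`)

`m` is fixed and the dimension is large. `Bd f j`: the function `f` of `E` is at most a constant times
`(E + 1) ^ j`. All the terms are bounded in this way, and `(E + 1) ^ x ≤ x ! * Nn E x`. As
`(e + 1) * Nn E x ≤ (x + 1) * Nn E e` for `x ≤ e`, the terms which are linear in the degree `d` cause
no problems.
-/

set_option autoImplicit false

namespace Pool.Agent.H1.FU

open Pool.Agent.W608.PR Pool.Agent.H55.FU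

/-- `f E ≤ C * (E + 1) ^ j` -/
def Bd (f : ℕ → ℕ) (j : ℕ) : Prop := ∃ C, ∀ E, f E ≤ C * (E + 1) ^ j

lemma Bd.mono {f : ℕ → ℕ} {i j : ℕ} (h : Bd f i) (hij : i ≤ j) : Bd f j := by
  obtain ⟨C, hC⟩ := h
  exact ⟨C, fun E => (hC E).trans (Nat.mul_le_mul_left _ (Nat.pow_le_pow_right (by omega) hij))⟩

lemma Bd.le {f g : ℕ → ℕ} {i : ℕ} (h : Bd f i) (hg : ∀ E, g E ≤ f E) : Bd g i := by
  obtain ⟨C, hC⟩ := h
  exact ⟨C, fun E => (hg E).trans (hC E)⟩

lemma Bd.const (c : ℕ) (j : ℕ) : Bd (fun _ => c) j :=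
  ⟨c, fun E => Nat.le_mul_of_pos_right c (pow_pos (Nat.succ_pos E) j)⟩

lemma Bd.add {f g : ℕ → ℕ} {i j l : ℕ} (hf : Bd f i) (hg : Bd g j) (hi : i ≤ l) (hj : j ≤ l) :
    Bd (fun E => f E + g E) l := by
  obtain ⟨C, hC⟩ := hf.mono hi
  obtain ⟨D, hD⟩ := hg.mono hj
  refine ⟨C + D, fun E => ?_⟩
  rw [add_mul]
  exact add_le_add (hC E) (hD E)

lemma Bd.mul {f g : ℕ → ℕ} {i j l : ℕ} (hf : Bd f i) (hg : Bd g j) (h : i + j ≤ l) :
    Bd (fun E => f E * g E) l := by
  refine Bd.mono ?_ h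
  obtain ⟨C, hC⟩ := hf
  obtain ⟨D, hD⟩ := hg
  refine ⟨C * D, fun E => ?_⟩
  calc f E * g E ≤ (C * (E + 1) ^ i) * (D * (E + 1) ^ j) := Nat.mul_le_mul (hC E) (hD E)
    _ = C * D * (E + 1) ^ (i + j) := by rw [pow_add]; ring

lemma Bd.lin (a : ℕ) : Bd (fun E => a + E) 1 := by
  refine ⟨a + 1, fun E => ?_⟩
  rw [pow_one]
  nlinarith [Nat.zero_le (a * E)]

/-- lower bound -/
lemma lower (E x : ℕ) : (E + 1) ^ x ≤ x.factorial * Nn E x := by
  have h1 : (E + 1) ^ x ≤ (E + 1 + 1).ascFactorial x :=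
    (Nat.pow_le_pow_left (by omega) x).trans (Nat.pow_succ_le_ascFactorial (E + 1 + 1) x)
  rw [Nat.ascFactorial_eq_factorial_mul_choose] at h1
  unfold Nn
  rw [show x + E + 1 = E + 1 + x by ring]
  have h2 : (E + 1 + x).choose x = (E + 1 + x).choose (E + 1) := by
    rw [Nat.choose_symm_add]
  rw [← h2]
  exact h1

lemma bd_Nn (x : ℕ) : Bd (fun E => Nn E x) x := by
  refine ⟨(x + 1) ^ x, fun E => ?_⟩
  have h1 : (E + 1 + 1).ascFactorial x ≤ (E + 1 + x) ^ x := Nat.ascFactorial_le_pow_add (E + 1) x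
  rw [Nat.ascFactorial_eq_factorial_mul_choose] at h1
  have h2 : (E + 1 + x).choose x = (E + 1 + x).choose (E + 1) := by
    rw [Nat.choose_symm_add]
  have h3 : Pool.Agent.W608.PR.Nn E x ≤ (E + 1 + x) ^ x := by
    unfold Pool.Agent.W608.PR.Nn
    rw [show x + E + 1 = E + 1 + x by ring, ← h2]
    exact (Nat.le_mul_of_pos_left _ (Nat.factorial_pos x)).trans h1
  refine h3.trans ?_
  rw [← mul_pow]
  refine Nat.pow_le_pow_left ?_ x
  nlinarith [Nat.zero_le (x * E)]

lemma dm_eq (E e : ℕ) : dm E e = Nn (E + 1) e := by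
  unfold dm Nn
  rw [show e + (E + 1) + 1 = e + E + 2 by ring]

lemma bd_dm (x : ℕ) : Bd (fun E => dm E x) x := by
  obtain ⟨C, hC⟩ := bd_Nn x
  refine ⟨C * 2 ^ x, fun E => ?_⟩
  dsimp only
  rw [dm_eq]
  refine (hC (E + 1)).trans ?_
  rw [mul_assoc, ← mul_pow]
  exact Nat.mul_le_mul_left _ (Nat.pow_le_pow_left (by omega) x)

lemma sz_eq {m : ℕ} (hm : 1 ≤ m) (E : ℕ) : sz E m = Nn E (m - 1) := by
  unfold sz Nn
  rw [show m - 1 + E + 1 = m + E by omega]

lemma bd_sz {m : ℕ} (hm : 1 ≤ m) : Bd (fun E => sz E m) (m - 1) :=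
  (bd_Nn (m - 1)).le fun E => (sz_eq hm E).le

lemma bd_aa {m : ℕ} (hm : 1 ≤ m) : Bd (fun E => aa E m) (m - 1) := by
  refine (bd_sz hm).le fun E => ?_
  unfold Pool.Agent.H55.FU.aa Pool.Agent.W608.PR.sz
  obtain ⟨k, rfl⟩ : ∃ k, m = k + 1 := ⟨m - 1, by omega⟩
  rw [Nat.add_sub_cancel, show k + 1 + E = (k + E) + 1 by ring, Nat.choose_succ_succ]
  exact Nat.le_add_right _ _

lemma bd_aa' {m : ℕ} (hm : 1 ≤ m) : Bd (fun E => Pool.Agent.H55.FU.aa (E + 1) m) (m - 1) := by
  refine (bd_sz hm).le fun E => ?_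
  unfold Pool.Agent.H55.FU.aa Pool.Agent.W608.PR.sz
  rw [show m - 1 + (E + 1) = m + E by omega]

lemma bd_Sz {m : ℕ} (hm : 1 ≤ m) : Bd (fun E => Sz E m) (m - 1) := by
  have h : Bd (fun E => m * Pool.Agent.W608.PR.sz E m) (m - 1) :=
    (Bd.const m 0).mul (bd_sz hm) (by omega)
  refine h.le fun E => ?_
  have h1 := Sz_ratio E m
  have h2 : (E + 2) * Pool.Agent.W608.PR.Sz E m ≤ (E + 2) * (m * Pool.Agent.W608.PR.sz E m) := by
    rw [h1, ← mul_assoc]
    refine Nat.mul_le_mul_right _ ?_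
    obtain ⟨k, rfl⟩ : ∃ k, m = k + 1 := ⟨m - 1, by omega⟩
    nlinarith [Nat.zero_le (k * E)]
  exact le_of_mul_le_mul_left h2 (by omega)

/-- bounded functions are eventually small -/
lemma Bd.small {f : ℕ → ℕ} {j x : ℕ} (h : Bd f j) (hx : j < x) :
    ∃ E₀, ∀ E, E₀ ≤ E → f E < Nn E x := by
  obtain ⟨C, hC⟩ := h
  refine ⟨C * x.factorial + 1, fun E hE => ?_⟩
  have h1 := lower E x
  by_contra hcon
  push Not at hcon
  have h2 : (E + 1) ^ x ≤ x.factorial * (C * (E + 1) ^ j) :=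
    h1.trans (Nat.mul_le_mul_left _ (hcon.trans (hC E)))
  have h3 : (E + 1) ^ (j + 1) ≤ (E + 1) ^ x := Nat.pow_le_pow_right (by omega) hx
  have h4 : (E + 1) ^ j * (E + 1) ≤ (E + 1) ^ j * (x.factorial * C) := by
    calc (E + 1) ^ j * (E + 1) = (E + 1) ^ (j + 1) := by rw [pow_succ]
      _ ≤ x.factorial * (C * (E + 1) ^ j) := h3.trans h2
      _ = (E + 1) ^ j * (x.factorial * C) := by ring
  have h5 := le_of_mul_le_mul_left h4 (pow_pos (Nat.succ_pos E) j)
  rw [mul_comm] at h5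
  omega

lemma Bd.small' {f : ℕ → ℕ} {j x : ℕ} (h : Bd f j) (hx : j < x) :
    ∃ E₀, ∀ E, E₀ ≤ E → f E < Pool.Agent.W608.PR.dm E x := by
  obtain ⟨E₀, h0⟩ := h.small hx
  refine ⟨E₀, fun E hE => (h0 E hE).trans_le ?_⟩
  unfold Pool.Agent.W608.PR.Nn Pool.Agent.W608.PR.dm
  rw [show x + E + 2 = (x + E + 1) + 1 by ring, show E + 2 = (E + 1) + 1 by ring,
    Nat.choose_succ_succ]
  exact Nat.le_add_right _ _

/-- `Nn E e / (e + 1)` is monotone -/
lemma ratio (E x : ℕ) : ∀ e, x ≤ e → (e + 1) * Nn E x ≤ (x + 1) * Nn E e := by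
  intro e he
  induction e, he using Nat.le_induction with
  | base => exact le_rfl
  | succ e he ih =>
    have h1 := Nn_ratio E e
    have h2 : (e + 1) * ((e + 1 + 1) * Nn E x) ≤ (e + 1) * ((x + 1) * Nn E (e + 1)) := by
      calc (e + 1) * ((e + 1 + 1) * Nn E x) = (e + 2) * ((e + 1) * Nn E x) := by ring
        _ ≤ (e + 2) * ((x + 1) * Nn E e) := Nat.mul_le_mul_left _ ih
        _ = (x + 1) * (Nn E e * (e + 2)) := by ring
        _ ≤ (x + 1) * (Nn E e * (e + E + 2)) :=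
          Nat.mul_le_mul_left _ (Nat.mul_le_mul_left _ (by omega))
        _ = (e + 1) * ((x + 1) * Nn E (e + 1)) := by rw [h1]; ring
    exact le_of_mul_le_mul_left h2 (by omega)

lemma Nn_mono {E x e : ℕ} (h : x ≤ e) : Nn E x ≤ Nn E e := by
  unfold Nn
  exact Nat.choose_le_choose _ (by omega)

theorem numB : S_numB := by
  intro m hm
  have hsz := bd_sz hm
  have haa := bd_aa hm
  have haa' := bd_aa' hm
  have hSz := bd_Sz hm
  -- the constants
  have hk : Bd (fun E => kA E m) (2 * m - 2) := by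
    unfold kA
    exact (haa.mul hsz le_rfl).add (Bd.const 1 0) (by omega) (by omega)
  have hc : Bd (fun E => cA E m) (2 * m - 2) := by
    unfold cA
    exact haa.mul hsz (by omega)
  have hc' : Bd (fun E => cB E m) (2 * m - 2) := by
    unfold cB
    exact haa'.mul hSz (by omega)
  have hR : Bd (fun E => Rg E m (kA E m)) (2 * m - 2) := by
    unfold Rg
    exact hk.add hsz le_rfl (by omega)
  have hY : Bd (fun E => Yg E m (cA E m)) (2 * m - 2) := by
    unfold Yg
    exact hc.add hsz le_rfl (by omega)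
  have hRs : Bd (fun E => Rg E m (kA E m) * sz E m) (3 * m - 3) := hR.mul hsz (by omega)
  -- the part `X` without the term linear in the degree
  have hX : Bd (fun E => m * (Nn E (3 * m - 1) + Yg E m (cA E m)) + cB E m + Yg E m (cA E m))
      (3 * m - 1) := by
    refine Bd.add (Bd.add ((Bd.const m 0).mul ((bd_Nn (3 * m - 1)).add hY le_rfl (by omega))
      (by omega : 0 + (3 * m - 1) ≤ 3 * m - 1)) hc' le_rfl (by omega)) hY le_rfl (by omega)
  obtain ⟨E1, h1⟩ := (Bd.mul (Bd.const 2 0) hk le_rfl).small (x := 2 * m - 1) (by omega)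
  obtain ⟨E2, h2⟩ := (Bd.mul (Bd.const ((3 * m + 1) * (2 * m)) 0) ((hRs.add hk (l := 3 * m - 1)
    (by omega) (by omega)).add hX le_rfl le_rfl) le_rfl).small (x := 3 * m) (by omega)
  obtain ⟨E3, h3⟩ := (Bd.mul (Bd.lin (m + 1)) hRs (l := 3 * m - 2) (by omega)).small
    (x := 3 * m) (by omega)
  obtain ⟨E4, h4⟩ := (Bd.mul (Bd.const ((4 * m + 1) * m) 0) (hSz.mul ((bd_dm (3 * m - 1)).add hR
    le_rfl (by omega)) (l := 4 * m - 2) (by omega)) le_rfl).small' (x := 4 * m) (by omega)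
  obtain ⟨E5, h5⟩ := (Bd.mul (Bd.const (4 * m + 1) 0) (((((bd_dm (3 * m - 1)).add hR
    le_rfl (by omega)).mul hsz (l := 4 * m - 2) (by omega)).add hk le_rfl (by omega)).add hX
    le_rfl (by omega)) le_rfl).small (x := 4 * m) (by omega)
  refine ⟨E1 + E2 + E3 + E4 + E5 + 1, by omega, fun E hE => ?_⟩
  have g1 := h1 E (by omega)
  have g2 := h2 E (by omega)
  have g3 := h3 E (by omega)
  have g4 := h4 E (by omega)
  have g5 := h5 E (by omega)
  clear h1 h2 h3 h4 h5
  refine ⟨g1.le, fun d hd => ⟨by omega, fun e he hde => ⟨?_, ?_, by omega⟩, ?_, ?_⟩⟩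
  · -- the first part of `Cndg`
    have hem : 3 * m ≤ e := by omega
    have r1 := ratio E (3 * m) e hem
    unfold Xg
    set R := Rg E m (kA E m) * sz E m with hRdef
    set κ := kA E m with hκ
    set Y := Yg E m (cA E m) with hYdef
    set N0 := Nn E (3 * m - 1) with hN0
    set c' := cB E m with hc'def
    -- `2 m (R + κ + X) ≤ Nn E e`
    have s1 : 2 * m * (R + κ + (m * (N0 + Y) + c' + (e + 1) * Y)) ≤ Nn E e := by
      have s2 : (3 * m + 1) * (2 * m * (R + κ + (m * (N0 + Y) + c' + (e + 1) * Y))) ≤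
          (3 * m + 1) * Nn E e := by
        refine le_trans ?_ r1
        refine le_trans ?_ (Nat.mul_le_mul_left (e + 1) g2.le)
        have s3 : R + κ + (m * (N0 + Y) + c' + (e + 1) * Y) ≤
            (e + 1) * (R + κ + (m * (N0 + Y) + c' + Y)) := by
          have s4 : R + κ + (m * (N0 + Y) + c') ≤ (e + 1) * (R + κ + (m * (N0 + Y) + c')) :=
            Nat.le_mul_of_pos_left _ (by omega)
          calc R + κ + (m * (N0 + Y) + c' + (e + 1) * Y)
              = (R + κ + (m * (N0 + Y) + c')) + (e + 1) * Y := by ring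
            _ ≤ (e + 1) * (R + κ + (m * (N0 + Y) + c')) + (e + 1) * Y :=
              Nat.add_le_add_right s4 _
            _ = (e + 1) * (R + κ + (m * (N0 + Y) + c' + Y)) := by ring
        calc (3 * m + 1) * (2 * m * (R + κ + (m * (N0 + Y) + c' + (e + 1) * Y)))
            ≤ (3 * m + 1) * (2 * m * ((e + 1) * (R + κ + (m * (N0 + Y) + c' + Y)))) :=
              Nat.mul_le_mul_left _ (Nat.mul_le_mul_left _ s3)
          _ = (e + 1) * ((3 * m + 1) * (2 * m) * (R + κ + (m * (N0 + Y) + c' + Y))) := by ring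
      exact le_of_mul_le_mul_left s2 (by omega)
    set W := R + κ + (m * (N0 + Y) + c' + (e + 1) * Y) with hW
    have r2 := Nn_ratio E e
    -- multiply by `2 (e + 1)`
    have s5 : 2 * (e + 1) * ((m - 1) * Nn E (e + 1) + (m + E) * W) ≤
        2 * (e + 1) * ((m + E) * Nn E e) := by
      obtain ⟨k, hk⟩ : ∃ k, m = k + 1 := ⟨m - 1, by omega⟩
      obtain ⟨f, hf⟩ : ∃ f, e + 1 = k + f ∧ k ≤ f := ⟨e + 1 - k, by omega, by omega⟩
      obtain ⟨hf1, hf2⟩ := hf
      have hmk : m - 1 = k := by omega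
      have s6 : (m + E) * (2 * W) ≤ (E + 1) * Nn E e := by
        calc (m + E) * (2 * W) ≤ (m * (E + 1)) * (2 * W) := by
              refine Nat.mul_le_mul_right _ ?_
              rw [hk]; nlinarith [Nat.zero_le (k * E)]
          _ = (E + 1) * (2 * m * W) := by ring
          _ ≤ (E + 1) * Nn E e := Nat.mul_le_mul_left _ s1
      have s7 : (e + 1) * ((E + 1) * Nn E e) ≤ 2 * f * ((E + 1) * Nn E e) :=
        Nat.mul_le_mul_right _ (by omega)
      calc 2 * (e + 1) * ((m - 1) * Nn E (e + 1) + (m + E) * W)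
          = 2 * k * (Nn E (e + 1) * (e + 1)) + (e + 1) * ((m + E) * (2 * W)) := by
            rw [hmk]; ring
        _ ≤ 2 * k * (Nn E e * (e + E + 2)) + 2 * f * ((E + 1) * Nn E e) := by
            rw [r2]
            exact Nat.add_le_add_left ((Nat.mul_le_mul_left _ s6).trans s7) _
        _ = 2 * (e + 1) * ((m + E) * Nn E e) := by
            rw [show e + E + 2 = (e + 1) + (E + 1) by ring, hf1, hk]
            ring
    exact le_of_mul_le_mul_left s5 (by positivity)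
  · -- the second part of `Cndg`
    have r1 : Nn E (3 * m) ≤ Nn E (e + 1) := Nn_mono (by omega)
    have r2 : (m + E + 1) * (Rg E m (kA E m) * sz E m) ≤ Nn E (e + 1) := by
      rw [show m + E + 1 = m + 1 + E by ring]
      exact g3.le.trans r1
    obtain ⟨f, hf⟩ : ∃ f, e + 2 = m + (f + 1) := ⟨e + 1 - m, by omega⟩
    rw [hf]
    calc (m + E + 1) * (Rg E m (kA E m) * sz E m) + m * Nn E (e + 1)
        ≤ Nn E (e + 1) + m * Nn E (e + 1) := Nat.add_le_add_right r2 _
      _ ≤ f * Nn E (e + 1) + (Nn E (e + 1) + m * Nn E (e + 1)) := Nat.le_add_left _ _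
      _ = (m + (f + 1)) * Nn E (e + 1) := by ring
  · -- the degree of the fixed part
    have r1 := ratio (E + 1) (4 * m) d hd
    rw [← dm_eq, ← dm_eq] at r1
    unfold Qg
    set R := Rg E m (kA E m) with hRdef
    set D0 := dm E (3 * m - 1) with hD0
    have s1 : (4 * m + 1) * (m * (Sz E m * (D0 + d * R))) < (4 * m + 1) * dm E d := by
      refine lt_of_lt_of_le ?_ r1
      refine lt_of_le_of_lt ?_ (Nat.mul_lt_mul_of_pos_left g4 (by omega : 0 < d + 1))
      have s2 : D0 + d * R ≤ (d + 1) * (D0 + R) := by nlinarith [Nat.zero_le (d * D0)]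
      calc (4 * m + 1) * (m * (Sz E m * (D0 + d * R)))
          ≤ (4 * m + 1) * (m * (Sz E m * ((d + 1) * (D0 + R)))) :=
            Nat.mul_le_mul_left _ (Nat.mul_le_mul_left _ (Nat.mul_le_mul_left _ s2))
        _ = (d + 1) * ((4 * m + 1) * m * (Sz E m * (D0 + R))) := by ring
    exact lt_of_mul_lt_mul_left s1 (by omega)
  · have r1 := ratio E (4 * m) d hd
    unfold Qg Xg
    set R := Rg E m (kA E m) with hRdef
    set κ := kA E m with hκ
    set Y := Yg E m (cA E m) with hYdef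
    set N0 := Nn E (3 * m - 1) with hN0
    set D0 := dm E (3 * m - 1) with hD0
    set c' := cB E m with hc'def
    set s := sz E m with hs
    have s1 : (4 * m + 1) * ((D0 + d * R) * s + κ + (m * (N0 + Y) + c' + d * Y)) ≤
        (4 * m + 1) * Nn E d := by
      refine le_trans ?_ r1
      refine le_trans ?_ (Nat.mul_le_mul_left (d + 1) g5.le)
      have s2 : (D0 + d * R) * s + κ + (m * (N0 + Y) + c' + d * Y) ≤
          (d + 1) * ((D0 + R) * s + κ + (m * (N0 + Y) + c' + Y)) := by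
        have e1 : (d + 1) * ((D0 + R) * s + κ + (m * (N0 + Y) + c' + Y)) =
            ((D0 + d * R) * s + κ + (m * (N0 + Y) + c' + d * Y)) +
            (d * (D0 * s + κ + (m * (N0 + Y) + c')) + R * s + Y) := by ring
        rw [e1]
        exact Nat.le_add_right _ _
      calc (4 * m + 1) * ((D0 + d * R) * s + κ + (m * (N0 + Y) + c' + d * Y))
          ≤ (4 * m + 1) * ((d + 1) * ((D0 + R) * s + κ + (m * (N0 + Y) + c' + Y))) :=
            Nat.mul_le_mul_left _ s2
        _ = (d + 1) * ((4 * m + 1) * ((D0 + R) * s + κ + (m * (N0 + Y) + c' + Y))) := by ring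
    exact le_of_mul_le_mul_left s1 (by omega)

end Pool.Agent.H1.FU
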