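import Mathlib
import Pool.Agent.H55.FU.StmC
import Pool.Agent.H1.FU.NumB
import Pool.Agent.H1.FU.NC0

/-!
# Project FU, module numC: reduction to the five inequalities

`m ≤ n = E + 2`, the degree is at least `128 m`.
-/

set_option autoImplicit false

namespace Pool.Agent.H1.FU

open Pool.Agent.W608.PR Pool.Agent.H55.FU

theorem numC : S_numC := by
  intro E m hE hm hmE
  obtain ⟨p, rfl⟩ : ∃ p, m = p + 1 := ⟨m - 1, by omega⟩
  have hp : p ≤ E + 1 := by omega
  have g1 := I1 p E hE hp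
  have g2 := I2 p E hE hp
  have g3 := I3 p E hE hp
  have g5 := I5 p E hE hp
  have g6 := I6 p E hE hp
  have eN : ∀ x, Gf (E + 1) x = Nn E x := fun x => by
    unfold Gf Nn
    rw [show x + (E + 1) = x + E + 1 by ring]
  have eD : ∀ x, Gf (E + 2) x = dm E x := fun x => by
    unfold Gf dm
    rw [show x + (E + 2) = x + E + 2 by ring]
  have es : Gf (E + 1) p = sz E (p + 1) := by
    unfold Gf sz
    rw [show p + (E + 1) = p + 1 + E by ring]
  have ea : Gf E p = aa E (p + 1) := by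
    unfold Gf aa
    rw [Nat.add_sub_cancel]
  have ea' : aa (E + 1) (p + 1) = sz E (p + 1) := by
    unfold aa sz
    rw [Nat.add_sub_cancel, show p + (E + 1) = p + 1 + E by ring]
  have hSz : Sz E (p + 1) ≤ 2 * sz E (p + 1) := by
    have h1 := Sz_ratio E (p + 1)
    refine le_of_mul_le_mul_left (?_ : (E + 2) * _ ≤ (E + 2) * _) (by omega)
    rw [h1, ← mul_assoc]
    exact Nat.mul_le_mul_right _ (by omega)
  have hD9 : dm E (9 * (p + 1)) ≤ 10 * Nn E (9 * (p + 1)) := by
    have h1 := dm_up E (9 * (p + 1))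
    refine le_of_mul_le_mul_left (?_ : (E + 2) * _ ≤ (E + 2) * _) (by omega)
    rw [h1, ← mul_assoc]
    exact Nat.mul_le_mul_right _ (by omega)
  have hms : p + 1 ≤ sz E (p + 1) := by
    rw [← es]
    unfold Gf
    have h1 : (p + 1).choose 1 ≤ (p + (E + 1)).choose p := by
      rw [show (p + 1).choose 1 = (p + 1).choose p by rw [← Nat.choose_symm_add]]
      exact Nat.choose_le_choose _ (by omega)
    rw [Nat.choose_one_right, Nat.choose_symm_add] at h1
    exact h1
  have ha1 : 1 ≤ aa E (p + 1) := by rw [← ea]; exact Gf_pos _ _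
  rw [ea, es, eN] at g1
  rw [ea, es, eN] at g2
  rw [es, eN, eN] at g3
  rw [es, eD, eD] at g5
  rw [ea, es, eD] at g6
  have hcB : cB E (p + 1) ≤ 2 * (sz E (p + 1) * sz E (p + 1)) := by
    unfold cB
    rw [ea']
    calc sz E (p + 1) * Sz E (p + 1) ≤ sz E (p + 1) * (2 * sz E (p + 1)) := Nat.mul_le_mul_left _ hSz
      _ = _ := by ring
  have hkA : kA E (p + 1) = aa E (p + 1) * sz E (p + 1) + 1 := rfl
  have hcA : cA E (p + 1) = aa E (p + 1) * sz E (p + 1) := rfl
  have hR : Rg E (p + 1) (kA E (p + 1)) = aa E (p + 1) * sz E (p + 1) + 1 + sz E (p + 1) := rfl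
  have hY : Yg E (p + 1) (cA E (p + 1)) = aa E (p + 1) * sz E (p + 1) + sz E (p + 1) := rfl
  have r0 : ∀ e, 127 * (p + 1) ≤ e → (e + 1) * Nn E (127 * (p + 1)) ≤ (127 * (p + 1) + 1) * Nn E e :=
    fun e he => ratio E _ e he
  have r1 : ∀ e, 127 * (p + 1) ≤ e → (e + 1) * dm E (127 * (p + 1)) ≤ (127 * (p + 1) + 1) * dm E e :=
    fun e he => by
      rw [dm_eq, dm_eq]
      exact ratio (E + 1) _ e he
  have mono0 : ∀ e, 127 * (p + 1) ≤ e → Nn E (127 * (p + 1)) ≤ Nn E e := fun e he => Nn_mono he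
  have mono1 : ∀ e, 127 * (p + 1) ≤ e → dm E (127 * (p + 1)) ≤ dm E e := fun e he => by
    rw [dm_eq, dm_eq]
    exact Nn_mono he
  -- abbreviations
  generalize hs' : sz E (p + 1) = s at *
  generalize ha' : aa E (p + 1) = a at *
  generalize hz' : Sz E (p + 1) = z at *
  obtain ⟨P, hP⟩ : ∃ P, P = a * s ^ 2 := ⟨_, rfl⟩
  rw [← hP] at g2 g6
  have hs1 : 1 ≤ s := by omega
  have q1 : a * s ≤ P := by
    rw [hP, pow_two, ← mul_assoc]
    exact Nat.le_mul_of_pos_right _ hs1
  have q2 : s * s ≤ P := by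
    rw [hP, pow_two]
    exact Nat.le_mul_of_pos_left _ ha1
  have q3 : s ≤ a * s := Nat.le_mul_of_pos_left _ ha1
  have q4 : 1 ≤ a * s := by omega
  have q5 : a * s * s = P := by rw [hP]; ring
  have q6 : P ≤ (p + 1) * P := Nat.le_mul_of_pos_left _ (by omega)
  -- the bound for `P`
  have b0 : ∀ e, 127 * (p + 1) ≤ e → 1380 * ((e + 1) * P) ≤ 128 * Nn E e := by
    intro e he
    refine le_of_mul_le_mul_left (?_ : (p + 1) * _ ≤ (p + 1) * _) (by omega)
    calc (p + 1) * (1380 * ((e + 1) * P)) = (e + 1) * (1380 * (p + 1) * P) := by ring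
      _ ≤ (e + 1) * Nn E (127 * (p + 1)) := Nat.mul_le_mul_left _ g2
      _ ≤ (127 * (p + 1) + 1) * Nn E e := r0 e he
      _ ≤ (128 * (p + 1)) * Nn E e := Nat.mul_le_mul_right _ (by omega)
      _ = (p + 1) * (128 * Nn E e) := by ring
  have b1 : ∀ e, 127 * (p + 1) ≤ e → 2000 * ((p + 1) * ((e + 1) * P)) ≤ 128 * dm E e := by
    intro e he
    refine le_of_mul_le_mul_left (?_ : (p + 1) * _ ≤ (p + 1) * _) (by omega)
    calc (p + 1) * (2000 * ((p + 1) * ((e + 1) * P))) = (e + 1) * (2000 * (p + 1) ^ 2 * P) := by ring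
      _ ≤ (e + 1) * dm E (127 * (p + 1)) := Nat.mul_le_mul_left _ g6
      _ ≤ (127 * (p + 1) + 1) * dm E e := r1 e he
      _ ≤ (128 * (p + 1)) * dm E e := Nat.mul_le_mul_right _ (by omega)
      _ = (p + 1) * (128 * dm E e) := by ring
  have hRs : Rg E (p + 1) (kA E (p + 1)) * s ≤ 3 * P := by
    rw [hR, add_mul, add_mul, q5]
    omega
  have hmN : (p + 1) * Nn E (9 * (p + 1)) ≤ s * Nn E (9 * (p + 1)) := Nat.mul_le_mul_right _ hms
  have hYP : Yg E (p + 1) (cA E (p + 1)) ≤ 2 * P := by rw [hY]; omega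
  have hmY : (p + 1) * Yg E (p + 1) (cA E (p + 1)) ≤ 2 * ((p + 1) * P) := by
    calc (p + 1) * Yg E (p + 1) (cA E (p + 1)) ≤ (p + 1) * (2 * P) := Nat.mul_le_mul_left _ hYP
      _ = _ := by ring
  have hXg : ∀ e, Xg E (p + 1) (cA E (p + 1)) (cB E (p + 1)) (9 * (p + 1)) e ≤
      s * Nn E (9 * (p + 1)) + 2 * ((p + 1) * P) + 2 * P + 2 * (e * P) := by
    intro e
    unfold Xg
    have h1 : e * Yg E (p + 1) (cA E (p + 1)) ≤ 2 * (e * P) := by
      calc e * Yg E (p + 1) (cA E (p + 1)) ≤ e * (2 * P) := Nat.mul_le_mul_left _ hYP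
        _ = _ := by ring
    rw [mul_add]
    have h2 : cB E (p + 1) ≤ 2 * P := hcB.trans (by omega)
    omega
  refine ⟨by rw [hkA]; omega, fun d hd => ⟨by omega, fun e he hde => ⟨?_, ?_, by omega⟩, ?_, ?_⟩⟩
  · -- the first part of `Cndg`
    have hem : 127 * (p + 1) ≤ e := by omega
    have c0 := b0 e hem
    have c1 := mono0 e hem
    have c2 := hXg (e + 1)
    set W := Rg E (p + 1) (kA E (p + 1)) * s + kA E (p + 1) +
      Xg E (p + 1) (cA E (p + 1)) (cB E (p + 1)) (9 * (p + 1)) (e + 1) with hW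
    have s1 : 4 * W ≤ Nn E e := by
      rw [hkA] at hW
      generalize (e + 1) * P = t1 at *
      generalize s * Nn E (9 * (p + 1)) = t2 at *
      have g2' : 1380 * ((p + 1) * P) ≤ Nn E (127 * (p + 1)) := by
        rw [← mul_assoc]; exact g2
      generalize (p + 1) * P = t3 at *
      omega
    have r2 := Nn_ratio E e
    have s5 : 2 * (e + 1) * ((p + 1 - 1) * Nn E (e + 1) + (p + 1 + E) * W) ≤
        2 * (e + 1) * ((p + 1 + E) * Nn E e) := by
      obtain ⟨f, hf⟩ : ∃ f, e + 1 = p + f ∧ p ≤ f := ⟨e + 1 - p, by omega, by omega⟩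
      obtain ⟨hf1, hf2⟩ := hf
      have s6 : (p + 1 + E) * (2 * W) ≤ (E + 1) * Nn E e := by
        calc (p + 1 + E) * (2 * W) ≤ (2 * (E + 1)) * (2 * W) :=
              Nat.mul_le_mul_right _ (by omega)
          _ = (E + 1) * (4 * W) := by ring
          _ ≤ (E + 1) * Nn E e := Nat.mul_le_mul_left _ s1
      have s7 : (e + 1) * ((E + 1) * Nn E e) ≤ 2 * f * ((E + 1) * Nn E e) :=
        Nat.mul_le_mul_right _ (by omega)
      calc 2 * (e + 1) * ((p + 1 - 1) * Nn E (e + 1) + (p + 1 + E) * W)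
          = 2 * p * (Nn E (e + 1) * (e + 1)) + (e + 1) * ((p + 1 + E) * (2 * W)) := by
            rw [Nat.add_sub_cancel]; ring
        _ ≤ 2 * p * (Nn E e * (e + E + 2)) + 2 * f * ((E + 1) * Nn E e) := by
            rw [r2]
            exact Nat.add_le_add_left ((Nat.mul_le_mul_left _ s6).trans s7) _
        _ = 2 * (e + 1) * ((p + 1 + E) * Nn E e) := by
            rw [show e + E + 2 = (e + 1) + (E + 1) by ring, hf1]
            ring
    rw [hs']
    exact le_of_mul_le_mul_left s5 (by positivity)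
  · -- the second part of `Cndg`
    have hem : 127 * (p + 1) ≤ e := by omega
    have r2 := Nn_ratio E e
    have c1 := mono0 e hem
    have c3 : 6 * P ≤ Nn E e := by
      have g2' : 1380 * ((p + 1) * P) ≤ Nn E (127 * (p + 1)) := by
        rw [← mul_assoc]; exact g2
      omega
    rw [hs']
    have s1 : 2 * ((p + 1 + E + 1) * (Rg E (p + 1) (kA E (p + 1)) * s)) ≤ (e + 1) * Nn E (e + 1) := by
      calc 2 * ((p + 1 + E + 1) * (Rg E (p + 1) (kA E (p + 1)) * s))
          ≤ 2 * ((p + 1 + E + 1) * (3 * P)) := Nat.mul_le_mul_left _ (Nat.mul_le_mul_left _ hRs)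
        _ = (p + 1 + E + 1) * (6 * P) := by ring
        _ ≤ (e + E + 2) * Nn E e := Nat.mul_le_mul (by omega) c3
        _ = (e + 1) * Nn E (e + 1) := by rw [mul_comm, r2, mul_comm]
    have s2 : (e + 1 + 2 * (p + 1)) * Nn E (e + 1) ≤ (2 * (e + 2)) * Nn E (e + 1) :=
      Nat.mul_le_mul_right _ (by omega)
    refine le_of_mul_le_mul_left (?_ : 2 * _ ≤ 2 * _) (by norm_num)
    calc 2 * ((p + 1 + E + 1) * (Rg E (p + 1) (kA E (p + 1)) * s) + (p + 1) * Nn E (e + 1))
        = 2 * ((p + 1 + E + 1) * (Rg E (p + 1) (kA E (p + 1)) * s)) + 2 * (p + 1) * Nn E (e + 1) := by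
          ring
      _ ≤ (e + 1) * Nn E (e + 1) + 2 * (p + 1) * Nn E (e + 1) := Nat.add_le_add_right s1 _
      _ = (e + 1 + 2 * (p + 1)) * Nn E (e + 1) := by ring
      _ ≤ (2 * (e + 2)) * Nn E (e + 1) := s2
      _ = _ := by ring
  · -- the degree of the fixed part
    have hdm : 127 * (p + 1) ≤ d := by omega
    have c0 := b1 d hdm
    have c1 := mono1 d hdm
    rw [hz']
    unfold Qg
    have hD : 0 < dm E d := by
      rw [← eD]; exact Gf_pos _ _
    have hR3 : Rg E (p + 1) (kA E (p + 1)) ≤ 3 * (a * s) := by rw [hR]; omega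
    have s1 : (p + 1) * (z * (dm E (9 * (p + 1)) + d * Rg E (p + 1) (kA E (p + 1)))) ≤
        2 * ((p + 1) * (s * dm E (9 * (p + 1)))) + 6 * ((p + 1) * ((d + 1) * P)) := by
      calc (p + 1) * (z * (dm E (9 * (p + 1)) + d * Rg E (p + 1) (kA E (p + 1))))
          ≤ (p + 1) * ((2 * s) * (dm E (9 * (p + 1)) + (d + 1) * (3 * (a * s)))) := by
            refine Nat.mul_le_mul_left _ (Nat.mul_le_mul hSz (Nat.add_le_add_left ?_ _))
            exact Nat.mul_le_mul (by omega) hR3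
        _ = 2 * ((p + 1) * (s * dm E (9 * (p + 1)))) + 6 * ((p + 1) * ((d + 1) * (a * s * s))) := by
            ring
        _ = _ := by rw [q5]
    have g5' : 380 * ((p + 1) * (s * dm E (9 * (p + 1)))) ≤ dm E (127 * (p + 1)) := by
      rw [← mul_assoc]; exact g5
    refine lt_of_le_of_lt s1 ?_
    generalize (p + 1) * (s * dm E (9 * (p + 1))) = t1 at *
    generalize (p + 1) * ((d + 1) * P) = t2 at *
    omega
  · have hdm : 127 * (p + 1) ≤ d := by omega
    have c0 := b0 d hdm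
    have c1 := mono0 d hdm
    have c2 := hXg d
    rw [hs']
    unfold Qg
    have s1 : (dm E (9 * (p + 1)) + d * Rg E (p + 1) (kA E (p + 1))) * s ≤
        10 * (s * Nn E (9 * (p + 1))) + 3 * (d * P) := by
      calc (dm E (9 * (p + 1)) + d * Rg E (p + 1) (kA E (p + 1))) * s
          = dm E (9 * (p + 1)) * s + d * (Rg E (p + 1) (kA E (p + 1)) * s) := by ring
        _ ≤ (10 * Nn E (9 * (p + 1))) * s + d * (3 * P) :=
            add_le_add (Nat.mul_le_mul_right _ hD9) (Nat.mul_le_mul_left _ hRs)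
        _ = _ := by ring
    have g2' : 1380 * ((p + 1) * P) ≤ Nn E (127 * (p + 1)) := by
      rw [← mul_assoc]; exact g2
    have e1 : (d + 1) * P = d * P + P := by ring
    rw [e1] at c0
    have hk2 : kA E (p + 1) ≤ 2 * P := by rw [hkA]; omega
    clear hkA
    generalize d * P = t1 at *
    generalize s * Nn E (9 * (p + 1)) = t2 at *
    generalize (p + 1) * P = t3 at *
    omega

end Pool.Agent.H1.FU
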