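import Mathlib
import Pool.Agent.H55.FU.StmV
import Pool.Agent.H1.FU.NumB

/-!
# The numerical part of Theorem V (module `S_numV`)

`k = E + 1`, `y = m + k`, `s = sz E m`, `a = aa E m`. For all `f` with `400 y ^ 3 ≤ k ^ 2 f`:
`16 k * dm E L * s ≤ Nn E f` and `7 k * (3 f a s ^ 2) ≤ Nn E f`.
-/

set_option autoImplicit false

namespace Pool.Agent.H1.FU.V

open Pool.Agent.W608.PR Pool.Agent.H55.FU Pool.Agent.H1.FU

lemma cp (n r : ℕ) : r.factorial * n.choose r ≤ n ^ r := by
  rw [← Nat.descFactorial_eq_factorial_mul_choose]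
  exact Nat.descFactorial_le_pow n r

lemma low (E e : ℕ) : e ^ (E + 1) ≤ (E + 1).factorial * Nn E e := by
  unfold Nn
  rw [← Nat.descFactorial_eq_factorial_mul_choose]
  have h1 := Nat.pow_sub_le_descFactorial (e + E + 1) (E + 1)
  refine le_trans (Nat.pow_le_pow_left ?_ _) h1
  omega

lemma e3 (k : ℕ) (hk : 1 ≤ k) : (k + 1) ^ k ≤ 3 * k ^ k := by
  have hk0 : (0 : ℝ) < k := by exact_mod_cast hk
  have h1 : ((k : ℝ) + 1) ^ k ≤ 3 * (k : ℝ) ^ k := by
    have h2 : ((k : ℝ) + 1) / k ≤ Real.exp (1 / k) := by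
      have h3 := Real.add_one_le_exp (1 / (k : ℝ))
      rw [add_div, div_self hk0.ne', add_comm]
      exact h3
    have h4 : (((k : ℝ) + 1) / k) ^ k ≤ 3 := by
      calc (((k : ℝ) + 1) / k) ^ k ≤ (Real.exp (1 / k)) ^ k :=
            pow_le_pow_left₀ (by positivity) h2 k
        _ = Real.exp 1 := by
            rw [← Real.exp_nat_mul]
            congr 1
            field_simp
        _ ≤ 3 := by
            have := Real.exp_one_lt_d9
            linarith
    rw [div_pow, div_le_iff₀ (by positivity)] at h4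
    exact h4
  exact_mod_cast h1

lemma kk : ∀ k : ℕ, 8 ≤ k → 2 * k ^ k ≤ k.factorial * 3 ^ k := by
  intro k hk
  induction k, hk using Nat.le_induction with
  | base => decide
  | succ k hk ih =>
    have h1 := e3 k (by omega)
    calc 2 * (k + 1) ^ (k + 1) = 2 * (k + 1) * (k + 1) ^ k := by rw [pow_succ]; ring
      _ ≤ 2 * (k + 1) * (3 * k ^ k) := Nat.mul_le_mul_left _ h1
      _ = 3 * (k + 1) * (2 * k ^ k) := by ring
      _ ≤ 3 * (k + 1) * (k.factorial * 3 ^ k) := Nat.mul_le_mul_left _ ih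
      _ = (k + 1).factorial * 3 ^ (k + 1) := by rw [Nat.factorial_succ, pow_succ]; ring

lemma n1 : ∀ k : ℕ, 8 ≤ k → 40 * k * 150 ^ k ≤ 400 ^ k := by
  intro k hk
  induction k, hk using Nat.le_induction with
  | base => norm_num
  | succ k hk ih =>
    calc 40 * (k + 1) * 150 ^ (k + 1) ≤ 40 * (2 * k) * 150 ^ (k + 1) :=
          Nat.mul_le_mul_right _ (Nat.mul_le_mul_left _ (by omega))
      _ = 300 * (40 * k * 150 ^ k) := by rw [pow_succ]; ring
      _ ≤ 400 * 400 ^ k := Nat.mul_le_mul (by norm_num) ih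
      _ = 400 ^ (k + 1) := by rw [pow_succ]; ring

lemma n2 : ∀ k : ℕ, 8 ≤ k → 2100 * k ^ 2 * 90 ^ k ≤ 400 ^ k := by
  intro k hk
  induction k, hk using Nat.le_induction with
  | base => norm_num
  | succ k hk ih =>
    have h1 : (k + 1) ^ 2 ≤ 4 * k ^ 2 := by nlinarith
    calc 2100 * (k + 1) ^ 2 * 90 ^ (k + 1) ≤ 2100 * (4 * k ^ 2) * 90 ^ (k + 1) :=
          Nat.mul_le_mul_right _ (Nat.mul_le_mul_left _ h1)
      _ = 360 * (2100 * k ^ 2 * 90 ^ k) := by rw [pow_succ]; ring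
      _ ≤ 400 * 400 ^ k := Nat.mul_le_mul (by norm_num) ih
      _ = 400 ^ (k + 1) := by rw [pow_succ]; ring

lemma le_sz (E : ℕ) : ∀ m, m ≤ sz E m := by
  intro m
  induction m with
  | zero => exact Nat.zero_le _
  | succ m ih =>
    have h1 : sz E (m + 1) = sz E m + aa E (m + 1) := by
      unfold aa sz
      rw [Nat.add_sub_cancel, show m + 1 + E = m + E + 1 by ring, Nat.choose_succ_succ, add_comm]
    have h2 : 1 ≤ aa E (m + 1) := Nat.choose_pos (by omega)
    omega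

lemma Nn_le_dm (E e : ℕ) : Nn E e ≤ dm E e := by
  unfold Pool.Agent.W608.PR.Nn Pool.Agent.W608.PR.dm
  rw [show e + E + 2 = (e + E + 1) + 1 by ring, show E + 2 = (E + 1) + 1 by ring,
    Nat.choose_succ_succ]
  exact Nat.le_add_right _ _

/-- the inequality which is needed for the first part of `Cndg` -/
lemma room2 {b e E W : ℕ} (hb : 1 ≤ b) (he : 2 * b ≤ e + 3)
    (s6 : (b + E) * (2 * W) ≤ (E + 1) * Nn E e) :
    (b - 1) * Nn E (e + 1) + (b + E) * W ≤ (b + E) * Nn E e := by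
  have r2 := Nn_ratio E e
  have s5 : 2 * (e + 1) * ((b - 1) * Nn E (e + 1) + (b + E) * W) ≤
      2 * (e + 1) * ((b + E) * Nn E e) := by
    obtain ⟨k, hk⟩ : ∃ k, b = k + 1 := ⟨b - 1, by omega⟩
    obtain ⟨f, hf⟩ : ∃ f, e + 1 = k + f ∧ k ≤ f := ⟨e + 1 - k, by omega, by omega⟩
    obtain ⟨hf1, hf2⟩ := hf
    have hmk : b - 1 = k := by omega
    have s7 : (e + 1) * ((E + 1) * Nn E e) ≤ 2 * f * ((E + 1) * Nn E e) :=
      Nat.mul_le_mul_right _ (by omega)
    calc 2 * (e + 1) * ((b - 1) * Nn E (e + 1) + (b + E) * W)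
        = 2 * k * (Nn E (e + 1) * (e + 1)) + (e + 1) * ((b + E) * (2 * W)) := by
          rw [hmk]; ring
      _ ≤ 2 * k * (Nn E e * (e + E + 2)) + 2 * f * ((E + 1) * Nn E e) := by
          rw [r2]
          exact Nat.add_le_add_left ((Nat.mul_le_mul_left _ s6).trans s7) _
      _ = 2 * (e + 1) * ((b + E) * Nn E e) := by
          rw [show e + E + 2 = (e + 1) + (E + 1) by ring, hf1, hk]
          ring
  exact le_of_mul_le_mul_left s5 (by positivity)

/-- the three basic upper bounds -/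
lemma bsz (E m : ℕ) : (E + 1).factorial * sz E m ≤ (m + (E + 1)) ^ (E + 1) := by
  unfold sz
  exact (cp _ _).trans (Nat.pow_le_pow_left (by omega) _)

lemma baa (E m : ℕ) : (E + 1).factorial * aa E m ≤ (E + 1) * (m + (E + 1)) ^ E := by
  unfold aa
  rw [Nat.factorial_succ, mul_assoc]
  exact Nat.mul_le_mul_left _ ((cp _ _).trans (Nat.pow_le_pow_left (by omega) _))

/-- the second basic inequality -/
lemma P2 {E m f : ℕ} (hE : 7 ≤ E) (h10 : (m + (E + 1)) ^ 2 ≤ (E + 1) ^ 2 * 10 ^ (E + 1))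
    (hf : 400 * (m + (E + 1)) ^ 3 ≤ (E + 1) ^ 2 * f) :
    7 * (E + 1) * (f * (3 * aa E m * sz E m * sz E m)) ≤ Nn E f := by
  have hs := bsz E m
  have ha := baa E m
  have hl := low E f
  have hkk := kk (E + 1) (by omega)
  have hn := n2 (E + 1) (by omega)
  obtain ⟨k, hk⟩ : ∃ k, k = E + 1 := ⟨_, rfl⟩
  have pE : k * k ^ E = k ^ k := by rw [← pow_succ', ← hk]
  have yE : (m + k) ^ k = (m + k) * (m + k) ^ E := by
    conv_lhs => rw [hk]
    rw [pow_succ', ← hk]
  have fE : f ^ k = f * f ^ E := by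
    conv_lhs => rw [hk]
    rw [pow_succ']
  have h4 : (400 : ℕ) ^ k = 400 * 400 ^ E := by rw [hk, pow_succ']
  rw [← hk] at h10 hf hs ha hl hkk hn ⊢
  obtain ⟨y, hy⟩ : ∃ y, y = m + k := ⟨_, rfl⟩
  rw [← hy] at h10 hf hs ha yE
  obtain ⟨F, hF⟩ : ∃ F, F = k.factorial := ⟨_, rfl⟩
  have hF0 : 0 < F := by rw [hF]; exact Nat.factorial_pos _
  rw [← hF] at hs ha hl hkk
  have hk0 : 0 < k := by omega
  -- the numerical inequality
  have c1 : 4 * (k ^ k * k ^ k) ≤ F * F * 9 ^ k := by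
    calc 4 * (k ^ k * k ^ k) = (2 * k ^ k) * (2 * k ^ k) := by ring
      _ ≤ (F * 3 ^ k) * (F * 3 ^ k) := Nat.mul_le_mul hkk hkk
      _ = F * F * 9 ^ k := by
          rw [show (9 : ℕ) = 3 * 3 by norm_num, mul_pow]; ring
  have c2 : 21 * k ^ 2 * 90 ^ k ≤ 4 * 400 ^ E := by
    rw [h4] at hn
    have : 100 * (21 * k ^ 2 * 90 ^ k) ≤ 100 * (4 * 400 ^ E) := by
      calc 100 * (21 * k ^ 2 * 90 ^ k) = 2100 * k ^ 2 * 90 ^ k := by ring
        _ ≤ 400 * 400 ^ E := hn
        _ = 100 * (4 * 400 ^ E) := by ring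
    exact le_of_mul_le_mul_left this (by norm_num)
  have c3 : 21 * (k ^ k * k ^ k) * y ^ 2 ≤ F * F * 400 ^ E := by
    have : 4 * (21 * (k ^ k * k ^ k) * y ^ 2) ≤ 4 * (F * F * 400 ^ E) := by
      calc 4 * (21 * (k ^ k * k ^ k) * y ^ 2) = 21 * (4 * (k ^ k * k ^ k)) * y ^ 2 := by ring
        _ ≤ 21 * (F * F * 9 ^ k) * (k ^ 2 * 10 ^ k) :=
            Nat.mul_le_mul (Nat.mul_le_mul_left _ c1) h10
        _ = F * F * (21 * k ^ 2 * 90 ^ k) := by
            rw [show (90 : ℕ) = 9 * 10 by norm_num, mul_pow]; ring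
        _ ≤ F * F * (4 * 400 ^ E) := Nat.mul_le_mul_left _ c2
        _ = 4 * (F * F * 400 ^ E) := by ring
    exact le_of_mul_le_mul_left this (by norm_num)
  -- the powers
  have c4 : F * F * (k ^ 2) ^ E * (21 * k * F * aa E m * sz E m * sz E m) ≤
      F * F * (k ^ 2) ^ E * f ^ E := by
    calc F * F * (k ^ 2) ^ E * (21 * k * F * aa E m * sz E m * sz E m)
        = 21 * k * (k ^ 2) ^ E * (F * aa E m) * (F * sz E m) * (F * sz E m) := by ring
      _ ≤ 21 * k * (k ^ 2) ^ E * (k * y ^ E) * (y ^ k) * (y ^ k) :=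
          Nat.mul_le_mul (Nat.mul_le_mul (Nat.mul_le_mul_left _ ha) hs) hs
      _ = 21 * ((k * k ^ E) * (k * k ^ E)) * y ^ 2 * (y ^ 3) ^ E := by
          rw [yE, ← pow_mul, ← pow_mul, mul_comm 2 E, mul_comm 3 E, pow_mul, pow_mul]; ring
      _ = 21 * (k ^ k * k ^ k) * y ^ 2 * (y ^ 3) ^ E := by rw [pE]
      _ ≤ (F * F * 400 ^ E) * (y ^ 3) ^ E := Nat.mul_le_mul_right _ c3
      _ = F * F * (400 * y ^ 3) ^ E := by rw [mul_pow]; ring
      _ ≤ F * F * (k ^ 2 * f) ^ E := Nat.mul_le_mul_left _ (Nat.pow_le_pow_left hf _)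
      _ = F * F * (k ^ 2) ^ E * f ^ E := by rw [mul_pow]; ring
  have c5 : 21 * k * F * aa E m * sz E m * sz E m ≤ f ^ E :=
    le_of_mul_le_mul_left c4 (by positivity)
  have c6 : F * (7 * k * (f * (3 * aa E m * sz E m * sz E m))) ≤ F * Nn E f := by
    calc F * (7 * k * (f * (3 * aa E m * sz E m * sz E m)))
        = f * (21 * k * F * aa E m * sz E m * sz E m) := by ring
      _ ≤ f * f ^ E := Nat.mul_le_mul_left _ c5
      _ = f ^ k := fE.symm
      _ ≤ F * Nn E f := hl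
  exact le_of_mul_le_mul_left c6 hF0

/-- the first basic inequality -/
lemma P1 {E m f L : ℕ} (hE : 7 ≤ E) (h10 : (m + (E + 1)) ^ 2 ≤ (E + 1) ^ 2 * 10 ^ (E + 1))
    (hf : 400 * (m + (E + 1)) ^ 3 ≤ (E + 1) ^ 2 * f)
    (hL : (E + 1) * (L + E + 2) ≤ 5 * (m + (E + 1)) ^ 2) :
    16 * (E + 1) * (dm E L * sz E m) ≤ Nn E f := by
  have hs := bsz E m
  have hl := low E f
  have hkk := kk (E + 1) (by omega)
  have hn := n1 (E + 1) (by omega)
  have hd : (E + 2).factorial * dm E L ≤ (L + E + 2) ^ (E + 2) := by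
    unfold dm
    exact cp _ _
  obtain ⟨k, hk⟩ : ∃ k, k = E + 1 := ⟨_, rfl⟩
  have pE : k * k ^ E = k ^ k := by rw [← pow_succ', ← hk]
  rw [show E + 2 = k + 1 by omega] at hd
  rw [← hk] at h10 hf hs hl hkk hn hL ⊢
  obtain ⟨y, hy⟩ : ∃ y, y = m + k := ⟨_, rfl⟩
  rw [← hy] at h10 hf hs hL
  obtain ⟨F, hF⟩ : ∃ F, F = k.factorial := ⟨_, rfl⟩
  have hF0 : 0 < F := by rw [hF]; exact Nat.factorial_pos _
  have hF1 : (k + 1).factorial = (k + 1) * F := by rw [Nat.factorial_succ, hF]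
  rw [hF1] at hd
  rw [← hF] at hs hl hkk
  have hk0 : 0 < k := by omega
  -- the numerical inequality
  have c3 : 16 * k ^ k * 5 ^ (k + 1) * y ^ 2 ≤ ((k + 1) * F) * 400 ^ k := by
    have : 2 * (16 * k ^ k * 5 ^ (k + 1) * y ^ 2) ≤ 2 * (((k + 1) * F) * 400 ^ k) := by
      calc 2 * (16 * k ^ k * 5 ^ (k + 1) * y ^ 2) = 80 * (2 * k ^ k) * 5 ^ k * y ^ 2 := by
            rw [pow_succ]; ring
        _ ≤ 80 * (F * 3 ^ k) * 5 ^ k * (k ^ 2 * 10 ^ k) :=
            Nat.mul_le_mul (Nat.mul_le_mul_right _ (Nat.mul_le_mul_left _ hkk)) h10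
        _ = 2 * (k * F * (40 * k * 150 ^ k)) := by
            rw [show (150 : ℕ) = 3 * 5 * 10 by norm_num, mul_pow, mul_pow]; ring
        _ ≤ 2 * (k * F * 400 ^ k) := Nat.mul_le_mul_left _ (Nat.mul_le_mul_left _ hn)
        _ ≤ 2 * (((k + 1) * F) * 400 ^ k) :=
            Nat.mul_le_mul_left _ (Nat.mul_le_mul_right _ (Nat.mul_le_mul_right _ (by omega)))
    exact le_of_mul_le_mul_left this (by norm_num)
  have c4 : ((k + 1) * F) * (k ^ 2) ^ k * (16 * k * F * (dm E L * sz E m)) ≤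
      ((k + 1) * F) * (k ^ 2) ^ k * f ^ k := by
    calc ((k + 1) * F) * (k ^ 2) ^ k * (16 * k * F * (dm E L * sz E m))
        = 16 * (k * k ^ E) * (F * sz E m) * (k ^ (k + 1) * (((k + 1) * F) * dm E L)) := by
          rw [pE, ← pow_mul, mul_comm 2 k, pow_mul, pow_succ]; ring
      _ ≤ 16 * (k * k ^ E) * (y ^ k) * (k ^ (k + 1) * (L + E + 2) ^ (k + 1)) :=
          Nat.mul_le_mul (Nat.mul_le_mul_left _ hs) (Nat.mul_le_mul_left _ hd)
      _ = 16 * k ^ k * (y ^ k) * (k * (L + E + 2)) ^ (k + 1) := by rw [pE, mul_pow]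
      _ ≤ 16 * k ^ k * (y ^ k) * (5 * y ^ 2) ^ (k + 1) :=
          Nat.mul_le_mul_left _ (Nat.pow_le_pow_left hL _)
      _ = (16 * k ^ k * 5 ^ (k + 1) * y ^ 2) * (y ^ 3) ^ k := by
          rw [mul_pow, pow_succ (y ^ 2) k, ← pow_mul, ← pow_mul, mul_comm 2 k, mul_comm 3 k,
            pow_mul, pow_mul]; ring
      _ ≤ (((k + 1) * F) * 400 ^ k) * (y ^ 3) ^ k := Nat.mul_le_mul_right _ c3
      _ = ((k + 1) * F) * (400 * y ^ 3) ^ k := by rw [mul_pow]; ring
      _ ≤ ((k + 1) * F) * (k ^ 2 * f) ^ k := Nat.mul_le_mul_left _ (Nat.pow_le_pow_left hf _)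
      _ = ((k + 1) * F) * (k ^ 2) ^ k * f ^ k := by rw [mul_pow]; ring
  have c5 : 16 * k * F * (dm E L * sz E m) ≤ f ^ k := le_of_mul_le_mul_left c4 (by positivity)
  have c6 : F * (16 * k * (dm E L * sz E m)) ≤ F * Nn E f := by
    calc F * (16 * k * (dm E L * sz E m)) = 16 * k * F * (dm E L * sz E m) := by ring
      _ ≤ f ^ k := c5
      _ ≤ F * Nn E f := hl
  exact le_of_mul_le_mul_left c6 hF0

/-- the first statement -/
lemma part1 {E m L0 : ℕ} (hE : 7 ≤ E) (hm : E + 3 ≤ m)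
    (hL1 : 3 * (m + (E + 1)) ^ 2 ≤ (E + 1) * L0) : 2 * kA E m ≤ Nn E L0 := by
  have hs := bsz E m
  have ha := baa E m
  have hl := low E L0
  have hkk := kk (E + 1) (by omega)
  have hs1 : 1 ≤ sz E m := by have := le_sz E m; omega
  have ha1 : 1 ≤ aa E m := Nat.choose_pos (by omega)
  have has : 1 ≤ aa E m * sz E m := Nat.mul_pos ha1 hs1
  obtain ⟨k, hk⟩ : ∃ k, k = E + 1 := ⟨_, rfl⟩
  have yE : (m + k) ^ k = (m + k) * (m + k) ^ E := by
    conv_lhs => rw [hk]
    rw [pow_succ', ← hk]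
  rw [← hk] at hL1 hs ha hl hkk
  obtain ⟨y, hy⟩ : ∃ y, y = m + k := ⟨_, rfl⟩
  rw [← hy] at hL1 hs ha yE
  obtain ⟨F, hF⟩ : ∃ F, F = k.factorial := ⟨_, rfl⟩
  have hF0 : 0 < F := by rw [hF]; exact Nat.factorial_pos _
  rw [← hF] at hs ha hl hkk
  have hk0 : 0 < k := by omega
  have c4 : F * F * k ^ k * (2 * kA E m) ≤ F * F * k ^ k * Nn E L0 := by
    calc F * F * k ^ k * (2 * kA E m) ≤ F * F * k ^ k * (4 * (aa E m * sz E m)) := by
          refine Nat.mul_le_mul_left _ ?_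
          unfold kA
          omega
      _ = 4 * k ^ k * (F * aa E m) * (F * sz E m) := by ring
      _ ≤ 4 * k ^ k * (k * y ^ E) * (y ^ k) := Nat.mul_le_mul (Nat.mul_le_mul_left _ ha) hs
      _ = (2 * k ^ k) * (2 * k) * (y ^ E * y ^ k) := by ring
      _ ≤ (F * 3 ^ k) * y * (y ^ E * y ^ k) :=
          Nat.mul_le_mul_right _ (Nat.mul_le_mul hkk (by omega))
      _ = F * 3 ^ k * ((y * y ^ E) * y ^ k) := by ring
      _ = F * (3 * y ^ 2) ^ k := by
          rw [← yE, mul_pow, ← pow_mul, mul_comm 2 k, pow_mul]; ring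
      _ ≤ F * (k * L0) ^ k := Nat.mul_le_mul_left _ (Nat.pow_le_pow_left hL1 _)
      _ = F * k ^ k * L0 ^ k := by rw [mul_pow]; ring
      _ ≤ F * k ^ k * (F * Nn E L0) := Nat.mul_le_mul_left _ hl
      _ = F * F * k ^ k * Nn E L0 := by ring
  exact le_of_mul_le_mul_left c4 (by positivity)

theorem numV : S_numV := by
  intro E m L0 hE hm h10 hL1 hL2
  have h10' : (m + (E + 1)) ^ 2 ≤ (E + 1) ^ 2 * 10 ^ (E + 1) := h10
  have hL1' : 3 * (m + (E + 1)) ^ 2 ≤ (E + 1) * L0 := hL1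
  have hL2' : (E + 1) * L0 ≤ 4 * (m + (E + 1)) ^ 2 := hL2
  refine ⟨part1 hE hm hL1', fun d hd => ?_⟩
  obtain ⟨L, hLdef⟩ : ∃ L, L = L0 + m := ⟨_, rfl⟩
  rw [← hLdef]
  have hL : (E + 1) * (L + E + 2) ≤ 5 * (m + (E + 1)) ^ 2 := by
    rw [hLdef]
    have : (E + 1) * (m + E + 2) ≤ (m + (E + 1)) ^ 2 := by nlinarith
    calc (E + 1) * (L0 + m + E + 2) = (E + 1) * L0 + (E + 1) * (m + E + 2) := by ring
      _ ≤ 4 * (m + (E + 1)) ^ 2 + (m + (E + 1)) ^ 2 := add_le_add hL2' this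
      _ = 5 * (m + (E + 1)) ^ 2 := by ring
  have P1' := fun f => P1 (E := E) (m := m) (f := f) (L := L) hE h10'
  have P2' := fun f => P2 (E := E) (m := m) (f := f) hE h10'
  obtain ⟨y, hy⟩ : ∃ y, y = m + (E + 1) := ⟨_, rfl⟩
  have hy2 : (E + 2) * Sz E m = y * sz E m := by
    rw [Sz_ratio, hy, add_assoc]
  obtain ⟨k, hk⟩ : ∃ k, k = E + 1 := ⟨_, rfl⟩
  have hk2 : E + 2 = k + 1 := by omega
  have hk0 : 0 < k := by omega
  have hd404 : 404 * y ^ 3 ≤ k ^ 2 * d := by
    have e1 : 8 * (k + 1) ≤ 9 * k := by omega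
    have e2 : 64 * (k + 1) ^ 2 ≤ 81 * k ^ 2 := by nlinarith
    have e3 : y ≤ 2 * m := by omega
    have e4 : 1024 * m * (y + 1) ^ 2 ≤ (k + 1) ^ 2 * d := by
      have : E + 2 + m = y + 1 := by omega
      rw [this, hk2] at hd
      exact hd
    have e5 : 512 * y ^ 3 ≤ 1024 * m * (y + 1) ^ 2 := by
      calc 512 * y ^ 3 = 512 * y * y ^ 2 := by ring
        _ ≤ 512 * (2 * m) * (y + 1) ^ 2 :=
            Nat.mul_le_mul (Nat.mul_le_mul_left _ e3) (Nat.pow_le_pow_left (by omega) 2)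
        _ = 1024 * m * (y + 1) ^ 2 := by ring
    have e6 : 81 * (404 * y ^ 3) ≤ 81 * (k ^ 2 * d) := by
      calc 81 * (404 * y ^ 3) ≤ 64 * (512 * y ^ 3) := by omega
        _ ≤ 64 * ((k + 1) ^ 2 * d) := Nat.mul_le_mul_left _ (e5.trans e4)
        _ = (64 * (k + 1) ^ 2) * d := by ring
        _ ≤ (81 * k ^ 2) * d := Nat.mul_le_mul_right _ e2
        _ = 81 * (k ^ 2 * d) := by ring
    exact le_of_mul_le_mul_left e6 (by norm_num)
  have hk2m : k ^ 2 * m ≤ y ^ 3 := by
    calc k ^ 2 * m ≤ y ^ 2 * y := Nat.mul_le_mul (Nat.pow_le_pow_left (by omega) 2) (by omega)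
      _ = y ^ 3 := by ring
  rw [← hy, ← hk] at hL hL1' hL2'
  rw [← hy, ← hk] at P1' P2'
  -- abbreviations
  have hms : m ≤ sz E m := le_sz E m
  have hs1 : 1 ≤ sz E m := by omega
  have ha1 : 1 ≤ aa E m := Nat.choose_pos (by omega)
  have hNd := Nn_le_dm E L
  have hup := dm_up E L
  obtain ⟨s, hs⟩ : ∃ s, s = sz E m := ⟨_, rfl⟩
  obtain ⟨a, ha⟩ : ∃ a, a = aa E m := ⟨_, rfl⟩
  have hκ : kA E m = a * s + 1 := by rw [hs, ha]; rfl
  have hR : Rg E m (kA E m) = a * s + 1 + s := by rw [Rg, hκ, hs]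
  have hY : Yg E m (cA E m) = a * s + s := by rw [Yg, cA, hs, ha]
  have hc' : cB E m ≤ y * (s * s) := by
    have e1 : aa (E + 1) m ≤ sz E m := by
      unfold aa sz
      rw [show m - 1 + (E + 1) = m + E by omega]
    have e2 : Sz E m ≤ y * sz E m := by
      rw [← hy2]
      exact Nat.le_mul_of_pos_left _ (by omega)
    unfold cB
    calc aa (E + 1) m * Sz E m ≤ sz E m * (y * sz E m) := Nat.mul_le_mul e1 e2
      _ = y * (s * s) := by rw [hs]; ring
  rw [← hs] at hms hs1 hy2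
  rw [← ha] at ha1
  rw [← hs] at P1'
  rw [← hs, ← ha] at P2'
  obtain ⟨b, hb⟩ : ∃ b, b = 3 * a * s * s := ⟨_, rfl⟩
  rw [← hb] at P2'
  have has : s ≤ a * s := Nat.le_mul_of_pos_left _ ha1
  have hass : a * s ≤ a * s * s := Nat.le_mul_of_pos_right _ hs1
  have hss : s * s ≤ b := by
    rw [hb]
    calc s * s ≤ a * s * s := Nat.mul_le_mul_right _ has
      _ ≤ 3 * a * s * s := by nlinarith [Nat.zero_le (a * s * s)]
  have hb3 : b = 3 * (a * s * s) := by rw [hb]; ring
  have hRs : (a * s + 1 + s) * s ≤ b := by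
    rw [hb3]
    have e1 : s ≤ a * s * s := has.trans hass
    have e2 : s * s ≤ a * s * s := Nat.mul_le_mul_right _ has
    calc (a * s + 1 + s) * s = a * s * s + s + s * s := by ring
      _ ≤ 3 * (a * s * s) := by omega
  have hκb : a * s + 1 ≤ b := by omega
  have hYb : a * s + s ≤ b := by omega
  have hmY : m * (a * s + s) ≤ b := by
    rw [hb3]
    calc m * (a * s + s) ≤ s * (a * s + a * s) := Nat.mul_le_mul hms (by omega)
      _ = 2 * (a * s * s) := by ring
      _ ≤ 3 * (a * s * s) := by omega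
  -- the consequences for large `f`
  have gen : ∀ f, d ≤ f + m → 400 * y ^ 3 ≤ k ^ 2 * f ∧ 400 * y ^ 2 ≤ k * f ∧ 400 * y ≤ f := by
    intro f hf
    have e1 : 400 * y ^ 3 ≤ k ^ 2 * f := by
      have e2 : k ^ 2 * d ≤ k ^ 2 * f + k ^ 2 * m := by
        rw [← Nat.mul_add]
        exact Nat.mul_le_mul_left _ hf
      omega
    have e2 : 400 * y ^ 2 ≤ k * f := by
      have : k * (400 * y ^ 2) ≤ k * (k * f) := by
        calc k * (400 * y ^ 2) ≤ y * (400 * y ^ 2) := Nat.mul_le_mul_right _ (by omega)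
          _ = 400 * y ^ 3 := by ring
          _ ≤ k ^ 2 * f := e1
          _ = k * (k * f) := by ring
      exact le_of_mul_le_mul_left this hk0
    have e3 : 400 * y ≤ f := by
      have : k * (400 * y) ≤ k * f := by
        calc k * (400 * y) ≤ y * (400 * y) := Nat.mul_le_mul_right _ (by omega)
          _ = 400 * y ^ 2 := by ring
          _ ≤ k * f := e2
      exact le_of_mul_le_mul_left this hk0
    exact ⟨e1, e2, e3⟩
  obtain ⟨A, hA⟩ : ∃ A, A = dm E L * s := ⟨_, rfl⟩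
  rw [← hA] at P1'
  have hmN : m * Nn E L ≤ A := by
    rw [hA, mul_comm (dm E L) s]
    exact Nat.mul_le_mul hms hNd
  obtain ⟨hd1, hd2, hd3⟩ := gen d (by omega)
  refine ⟨by omega, fun e he hde => ?_, ?_, ?_⟩
  · -- `Cndg`
    obtain ⟨he1, he2, he3⟩ := gen e hde
    have q1 := P1' e he1 hL
    have q2 := P2' e he1
    obtain ⟨B, hB⟩ : ∃ B, B = e * b := ⟨_, rfl⟩
    rw [← hB] at q2
    have hBk : 8 * B ≤ k * B := Nat.mul_le_mul_right _ (by omega)
    have hyb : 2 * y * b ≤ B := by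
      rw [hB]
      exact Nat.mul_le_mul_right _ (by omega)
    refine ⟨?_, ?_, ?_⟩
    · refine room2 (by omega) (by omega) ?_
      rw [hR, ← hs, hκ]
      unfold Xg
      rw [hY]
      have t1 : 2 * y * ((a * s + 1 + s) * s) ≤ B := (Nat.mul_le_mul_left _ hRs).trans hyb
      have t2 : 2 * y * (a * s + 1) ≤ B := (Nat.mul_le_mul_left _ hκb).trans hyb
      have t3 : 2 * y * (m * Nn E L) ≤ k * A := by
        have e1 : (k + 1) * (2 * y * (m * Nn E L)) ≤ (k + 1) * (k * A) := by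
          calc (k + 1) * (2 * y * (m * Nn E L)) = (2 * (k + 1)) * (y * m * Nn E L) := by ring
            _ ≤ (3 * y) * (y * m * Nn E L) := Nat.mul_le_mul_right _ (by omega)
            _ = (3 * y ^ 2) * (Nn E L * m) := by ring
            _ ≤ (k * L0) * (Nn E L * s) := Nat.mul_le_mul hL1' (Nat.mul_le_mul_left _ hms)
            _ ≤ (k * (L + E + 2)) * (Nn E L * s) :=
                Nat.mul_le_mul_right _ (Nat.mul_le_mul_left _ (by omega))
            _ = k * ((L + E + 2) * Nn E L) * s := by ring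
            _ = k * ((E + 2) * dm E L) * s := by rw [hup]
            _ = (k + 1) * (k * A) := by rw [hk2, hA]; ring
        exact le_of_mul_le_mul_left e1 (by omega)
      have t4 : 2 * y * (m * (a * s + s)) ≤ B := (Nat.mul_le_mul_left _ hmY).trans hyb
      have t5 : 2 * y * cB E m ≤ k * B := by
        calc 2 * y * cB E m ≤ 2 * y * (y * (s * s)) := Nat.mul_le_mul_left _ hc'
          _ = (2 * y ^ 2) * (s * s) := by ring
          _ ≤ (k * e) * b := Nat.mul_le_mul (by omega) hss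
          _ = k * B := by rw [hB]; ring
      have t6 : 2 * y * ((e + 1) * (a * s + s)) ≤ k * B := by
        calc 2 * y * ((e + 1) * (a * s + s)) ≤ 2 * (2 * s) * ((2 * e) * (a * s + a * s)) :=
              Nat.mul_le_mul (Nat.mul_le_mul_left _ (by omega))
                (Nat.mul_le_mul (by omega) (by omega))
          _ = 16 * (e * (a * s * s)) := by ring
          _ ≤ (3 * k) * (e * (a * s * s)) := Nat.mul_le_mul_right _ (by omega)
          _ = k * B := by rw [hB, hb3]; ring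
      calc (m + E) * (2 * ((a * s + 1 + s) * s + (a * s + 1) +
            (m * (Nn E L + (a * s + s)) + cB E m + (e + 1) * (a * s + s))))
          ≤ y * (2 * ((a * s + 1 + s) * s + (a * s + 1) +
            (m * (Nn E L + (a * s + s)) + cB E m + (e + 1) * (a * s + s)))) :=
            Nat.mul_le_mul_right _ (by omega)
        _ = 2 * y * ((a * s + 1 + s) * s) + 2 * y * (a * s + 1) + 2 * y * (m * Nn E L) +
            2 * y * (m * (a * s + s)) + 2 * y * cB E m + 2 * y * ((e + 1) * (a * s + s)) := by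
            ring
        _ ≤ B + B + k * A + B + k * B + k * B :=
            add_le_add (add_le_add (add_le_add (add_le_add (add_le_add t1 t2) t3) t4) t5) t6
        _ ≤ Nn E e := by
            have e1 : 16 * (k * A) ≤ Nn E e := by
              calc 16 * (k * A) = 16 * k * A := by ring
                _ ≤ Nn E e := q1
            have e2 : 7 * (k * B) ≤ Nn E e := by
              calc 7 * (k * B) = 7 * k * B := by ring
                _ ≤ Nn E e := q2
            omega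
        _ ≤ (E + 1) * Nn E e := Nat.le_mul_of_pos_left _ (by omega)
    · rw [hR, ← hs]
      have r1 : (m + E + 1) * ((a * s + 1 + s) * s) ≤ Nn E (e + 1) := by
        have e0 : (m + E + 1) * ((a * s + 1 + s) * s) ≤ B := by
          calc (m + E + 1) * ((a * s + 1 + s) * s) ≤ (2 * y) * b :=
                Nat.mul_le_mul (by omega) hRs
            _ ≤ B := hyb
        have e2 : 7 * (k * B) ≤ Nn E e := by
          calc 7 * (k * B) = 7 * k * B := by ring
            _ ≤ Nn E e := q2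
        have e3 : Nn E e ≤ Nn E (e + 1) := Nn_mono (by omega)
        omega
      obtain ⟨g, hg⟩ : ∃ g, e + 2 = m + (g + 1) := ⟨e + 1 - m, by omega⟩
      rw [hg]
      calc (m + E + 1) * ((a * s + 1 + s) * s) + m * Nn E (e + 1)
          ≤ Nn E (e + 1) + m * Nn E (e + 1) := Nat.add_le_add_right r1 _
        _ ≤ g * Nn E (e + 1) + (Nn E (e + 1) + m * Nn E (e + 1)) := Nat.le_add_left _ _
        _ = (m + (g + 1)) * Nn E (e + 1) := by ring
    · have e1 : k * L ≤ k * e := by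
        calc k * L ≤ k * (L + E + 2) := Nat.mul_le_mul_left _ (by omega)
          _ ≤ 5 * y ^ 2 := hL
          _ ≤ k * e := by omega
      exact le_of_mul_le_mul_left e1 hk0
  · -- the degree of the fixed part
    have q1 := P1' d hd1 hL
    have q2 := P2' d hd1
    obtain ⟨B, hB⟩ : ∃ B, B = d * b := ⟨_, rfl⟩
    rw [← hB] at q2
    have hN0 : 0 < Nn E d := Nat.choose_pos (by omega)
    have hQ : s * Qg E m (kA E m) L d ≤ A + B := by
      unfold Qg
      rw [hR]
      calc s * (dm E L + d * (a * s + 1 + s)) = dm E L * s + d * ((a * s + 1 + s) * s) := by ring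
        _ ≤ A + B := by rw [hA, hB]; exact Nat.add_le_add_left (Nat.mul_le_mul_left _ hRs) _
    have e1 : m * y * (A + B) ≤ d * Nn E d := by
      have e2 : k * (m * y * (A + B)) ≤ k * (d * Nn E d) := by
        have e3 : k * A + k * B ≤ Nn E d := by
          have e4 : 16 * (k * A) ≤ Nn E d := by
            calc 16 * (k * A) = 16 * k * A := by ring
              _ ≤ Nn E d := q1
          have e5 : 7 * (k * B) ≤ Nn E d := by
            calc 7 * (k * B) = 7 * k * B := by ring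
              _ ≤ Nn E d := q2
          omega
        have e6 : m * y ≤ k * d := by
          calc m * y ≤ y * y := Nat.mul_le_mul_right _ (by omega)
            _ = y ^ 2 := by ring
            _ ≤ k * d := by omega
        calc k * (m * y * (A + B)) = (m * y) * (k * A + k * B) := by ring
          _ ≤ (k * d) * Nn E d := Nat.mul_le_mul e6 e3
          _ = k * (d * Nn E d) := by ring
      exact le_of_mul_le_mul_left e2 hk0
    have e7 : (E + 2) * (m * (Sz E m * Qg E m (kA E m) L d)) < (E + 2) * dm E d := by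
      rw [dm_up]
      calc (E + 2) * (m * (Sz E m * Qg E m (kA E m) L d))
          = m * ((E + 2) * Sz E m) * Qg E m (kA E m) L d := by ring
        _ = m * y * (s * Qg E m (kA E m) L d) := by rw [hy2]; ring
        _ ≤ m * y * (A + B) := Nat.mul_le_mul_left _ hQ
        _ ≤ d * Nn E d := e1
        _ < (d + E + 2) * Nn E d := Nat.mul_lt_mul_of_pos_right (by omega) hN0
    exact lt_of_mul_lt_mul_left e7 (Nat.zero_le _)
  · -- the last condition
    have q1 := P1' d hd1 hL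
    have q2 := P2' d hd1
    obtain ⟨B, hB⟩ : ∃ B, B = d * b := ⟨_, rfl⟩
    rw [← hB] at q2
    have hbB : b ≤ B := by rw [hB]; exact Nat.le_mul_of_pos_left _ (by omega)
    have hA8 : 8 * A ≤ k * A := Nat.mul_le_mul_right _ (by omega)
    have hB8 : 8 * B ≤ k * B := Nat.mul_le_mul_right _ (by omega)
    unfold Qg Xg
    rw [hR, hY, hκ, ← hs]
    have t1 : d * ((a * s + 1 + s) * s) ≤ B := by rw [hB]; exact Nat.mul_le_mul_left _ hRs
    have t2 : cB E m ≤ B := by
      calc cB E m ≤ y * (s * s) := hc'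
        _ ≤ d * b := Nat.mul_le_mul (by omega) hss
        _ = B := hB.symm
    have t3 : d * (a * s + s) ≤ B := by rw [hB]; exact Nat.mul_le_mul_left _ hYb
    calc (dm E L + d * (a * s + 1 + s)) * s + (a * s + 1) +
          (m * (Nn E L + (a * s + s)) + cB E m + d * (a * s + s))
        = dm E L * s + d * ((a * s + 1 + s) * s) + (a * s + 1) + m * Nn E L +
          m * (a * s + s) + cB E m + d * (a * s + s) := by ring
      _ ≤ A + B + B + A + B + B + B := by
          rw [← hA]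
          exact add_le_add (add_le_add (add_le_add (add_le_add (add_le_add (Nat.add_le_add_left
            t1 _) (hκb.trans hbB)) hmN) (hmY.trans hbB)) t2) t3
      _ ≤ Nn E d := by
          have e4 : 16 * (k * A) ≤ Nn E d := by
            calc 16 * (k * A) = 16 * k * A := by ring
              _ ≤ Nn E d := q1
          have e5 : 7 * (k * B) ≤ Nn E d := by
            calc 7 * (k * B) = 7 * k * B := by ring
              _ ≤ Nn E d := q2
          omega

end Pool.Agent.H1.FU.V
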